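import Pool.Agent.Helper71.PR.Goals

/-!
# Project PR (MP_af9e5e_al): basic lemmas on triangular matrices, limits
-/

set_option autoImplicit false

namespace Pool.Agent.Helper71.PR

open Matrix Filter Topology

/-! ## Triangular matrices -/

theorem UppU.bt {n : ℕ} {U : Mt n} (h : UppU U) : U.BlockTriangular id := fun i j hij => h.2 i j hij

theorem LowT.bt {n : ℕ} {L : Mt n} (h : LowT L) : L.BlockTriangular OrderDual.toDual := fun i j hij => h i j hij

theorem LowU.lowT {n : ℕ} {L : Mt n} (h : LowU L) : LowT L := h.2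

theorem LowU.bt {n : ℕ} {L : Mt n} (h : LowU L) : L.BlockTriangular OrderDual.toDual := h.lowT.bt

theorem UppU.det {n : ℕ} {U : Mt n} (h : UppU U) : U.det = 1 := by
  rw [Matrix.det_of_isUpperTriangular h.bt]
  exact Finset.prod_eq_one fun i _ => h.1 i

theorem LowT.det_eq {n : ℕ} {L : Mt n} (h : LowT L) : L.det = ∏ i, L i i :=
  Matrix.det_of_isLowerTriangular L h.bt

theorem LowU.det {n : ℕ} {L : Mt n} (h : LowU L) : L.det = 1 := by
  rw [h.lowT.det_eq]
  exact Finset.prod_eq_one fun i _ => h.1 i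

theorem LowT.diag_ne {n : ℕ} {L : Mt n} (h : LowT L) (hd : L.det ≠ 0) (i : Fin n) : L i i ≠ 0 := by
  rw [h.det_eq] at hd
  exact (Finset.prod_ne_zero_iff.1 hd) i (Finset.mem_univ i)

theorem UppU.isUnit {n : ℕ} {U : Mt n} (h : UppU U) : IsUnit U.det := by
  rw [h.det]; exact isUnit_one

theorem LowU.isUnit {n : ℕ} {L : Mt n} (h : LowU L) : IsUnit L.det := by
  rw [h.det]; exact isUnit_one

theorem uppU_one {n : ℕ} : UppU (1 : Mt n) :=
  ⟨fun i => Matrix.one_apply_eq i, fun _ _ h => Matrix.one_apply_ne (ne_of_gt h)⟩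

theorem lowU_one {n : ℕ} : LowU (1 : Mt n) :=
  ⟨fun i => Matrix.one_apply_eq i, fun _ _ h => Matrix.one_apply_ne (ne_of_lt h)⟩

theorem UppU.mul_apply_diag {n : ℕ} {U V : Mt n} (hU : U.BlockTriangular id) (hV : V.BlockTriangular id) (i : Fin n) :
    (U * V) i i = U i i * V i i := by
  rw [Matrix.mul_apply, Finset.sum_eq_single i]
  · intro b _ hb
    rcases lt_or_gt_of_ne hb with h | h
    · rw [hU (show id b < id i from h), zero_mul]
    · rw [hV (show id i < id b from h), mul_zero]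
  · intro h; exact absurd (Finset.mem_univ i) h

theorem LowT.mul_apply_diag {n : ℕ} {U V : Mt n} (hU : LowT U) (hV : LowT V) (i : Fin n) :
    (U * V) i i = U i i * V i i := by
  rw [Matrix.mul_apply, Finset.sum_eq_single i]
  · intro b _ hb
    rcases lt_or_gt_of_ne hb with h | h
    · rw [hV b i h, mul_zero]
    · rw [hU i b h, zero_mul]
  · intro h; exact absurd (Finset.mem_univ i) h

theorem UppU.mul {n : ℕ} {U V : Mt n} (hU : UppU U) (hV : UppU V) : UppU (U * V) := by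
  refine ⟨fun i => ?_, fun i j hij => ?_⟩
  · rw [UppU.mul_apply_diag hU.bt hV.bt, hU.1, hV.1, one_mul]
  · exact (hU.bt.mul hV.bt) (show id j < id i from hij)

theorem LowT.mul {n : ℕ} {U V : Mt n} (hU : LowT U) (hV : LowT V) : LowT (U * V) :=
  fun _ _ hij => (hU.bt.mul hV.bt) hij

theorem LowU.mul {n : ℕ} {U V : Mt n} (hU : LowU U) (hV : LowU V) : LowU (U * V) := by
  refine ⟨fun i => ?_, hU.lowT.mul hV.lowT⟩
  rw [LowT.mul_apply_diag hU.lowT hV.lowT, hU.1, hV.1, one_mul]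

theorem lowT_diagonal {n : ℕ} (d : Fin n → ℝ) : LowT (diagonal d) :=
  fun _ _ h => Matrix.diagonal_apply_ne _ (ne_of_lt h)

theorem LowT.inv {n : ℕ} {L : Mt n} (h : LowT L) (hd : L.det ≠ 0) : LowT L⁻¹ := by
  have : Invertible L := Matrix.invertibleOfIsUnitDet L (isUnit_iff_ne_zero.2 hd)
  have := Matrix.blockTriangular_inv_of_blockTriangular h.bt
  exact fun i j hij => this hij

theorem UppU.inv {n : ℕ} {U : Mt n} (h : UppU U) : UppU U⁻¹ := by
  have : Invertible U := Matrix.invertibleOfIsUnitDet U h.isUnit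
  have hb : (U⁻¹).BlockTriangular id := Matrix.blockTriangular_inv_of_blockTriangular h.bt
  refine ⟨fun i => ?_, fun i j hij => hb (show id j < id i from hij)⟩
  have h1 : (U * U⁻¹) i i = 1 := by
    rw [Matrix.mul_nonsing_inv U h.isUnit, Matrix.one_apply_eq]
  rw [UppU.mul_apply_diag h.bt hb, h.1, one_mul] at h1
  exact h1

theorem LowU.inv {n : ℕ} {L : Mt n} (h : LowU L) : LowU L⁻¹ := by
  have hd : L.det ≠ 0 := by rw [h.det]; exact one_ne_zero
  refine ⟨fun i => ?_, h.lowT.inv hd⟩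
  have h1 : (L * L⁻¹) i i = 1 := by
    rw [Matrix.mul_nonsing_inv L h.isUnit, Matrix.one_apply_eq]
  rw [LowT.mul_apply_diag h.lowT (h.lowT.inv hd), h.1, one_mul] at h1
  exact h1

/-- the first superdiagonal of the inverse of a unit upper triangular matrix -/
theorem UppU.inv_super {n : ℕ} {U : Mt n} (h : UppU U) (i j : Fin n) (hij : (j : ℕ) = i + 1) :
    U⁻¹ i j = - U i j := by
  have h1 : (U * U⁻¹) i j = 0 := by
    rw [Matrix.mul_nonsing_inv U h.isUnit, Matrix.one_apply_ne]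
    intro he; rw [he] at hij; omega
  have hne : i ≠ j := by intro he; rw [he] at hij; omega
  rw [Matrix.mul_apply, Finset.sum_eq_add_of_mem i j (Finset.mem_univ _) (Finset.mem_univ _) hne] at h1
  · rw [h.1 i, h.inv.1 j] at h1
    linarith
  · intro c _ hc
    rcases lt_or_ge c i with h2 | h2
    · rw [h.2 i c h2, zero_mul]
    · have h3 : j < c := by
        have h4 : i < c := lt_of_le_of_ne h2 (Ne.symm hc.1)
        have h5 : (i : ℕ) < c := h4
        have h6 : (c : ℕ) ≠ j := fun h => hc.2 (Fin.ext h)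
        show (j : ℕ) < c
        omega
      rw [h.inv.2 c j h3, mul_zero]

/-! ## Compound matrices -/

theorem cp_smul {n : ℕ} (r : ℕ) (c : ℝ) (A : Mt n) : cp r (c • A) = c ^ r • cp r A := by
  ext I K
  have h : (c • A).submatrix I.emb K.emb = c • A.submatrix I.emb K.emb := rfl
  show ((c • A).submatrix I.emb K.emb).det = c ^ r * (A.submatrix I.emb K.emb).det
  rw [h, Matrix.det_smul, Fintype.card_fin]

theorem cp_inv {n : ℕ} (r : ℕ) (A : Mt n) (hA : A.det ≠ 0) : cp r A⁻¹ = (cp r A)⁻¹ := by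
  symm
  apply Matrix.inv_eq_right_inv
  rw [← cp_mul, Matrix.mul_nonsing_inv A (isUnit_iff_ne_zero.2 hA), cp_one]

/-- the elements of `bd j j` are the indices at most `j` -/
theorem mem_bd_self {n : ℕ} (j a : Fin n) : a ∈ (bd j j le_rfl).1 ↔ a ≤ j := by
  show a ∈ insert j (Finset.Iio j) ↔ _
  rw [Finset.mem_insert, Finset.mem_Iio]
  exact le_iff_eq_or_lt.symm

theorem mem_bd {n : ℕ} (j i a : Fin n) (h : j ≤ i) : a ∈ (bd j i h).1 ↔ a = i ∨ a < j := by
  show a ∈ insert i (Finset.Iio j) ↔ _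
  rw [Finset.mem_insert, Finset.mem_Iio]

theorem JS.emb_mem {r n : ℕ} (I : JS r n) (a : Fin r) : I.emb a ∈ I.1 := Finset.orderEmbOfFin_mem I.1 I.2 a

theorem JS.exists_emb {r n : ℕ} (I : JS r n) (i : Fin n) (h : i ∈ I.1) : ∃ a, I.emb a = i := by
  have h' : i ∈ Set.range (I.1.orderEmbOfFin I.2) := by
    rw [Finset.range_orderEmbOfFin]; exact h
  exact h'

theorem cp_eq_zero_col {n r : ℕ} (A : Mt n) (I K : JS r n) (i : Fin n) (hi : i ∈ K.1) (h : ∀ a ∈ I.1, A a i = 0) :
    cp r A I K = 0 := by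
  obtain ⟨b, hb⟩ := K.exists_emb i hi
  refine Matrix.det_eq_zero_of_column_eq_zero b fun a => ?_
  rw [Matrix.submatrix_apply, hb]
  exact h _ (I.emb_mem a)

theorem cp_eq_zero_row {n r : ℕ} (A : Mt n) (I K : JS r n) (i : Fin n) (hi : i ∈ I.1) (h : ∀ a ∈ K.1, A i a = 0) :
    cp r A I K = 0 := by
  obtain ⟨b, hb⟩ := I.exists_emb i hi
  refine Matrix.det_eq_zero_of_row_eq_zero b fun a => ?_
  rw [Matrix.submatrix_apply, hb]
  exact h _ (K.emb_mem a)

theorem cp_bd_lowT {n : ℕ} {l : Mt n} (h : LowT l) (j i : Fin n) (hji : j < i) :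
    cp ((j : ℕ) + 1) l (bd j j le_rfl) (bd j i hji.le) = 0 := by
  refine cp_eq_zero_col l _ _ i ((mem_bd j i i hji.le).2 (Or.inl rfl)) fun a ha => ?_
  exact h a i (lt_of_le_of_lt ((mem_bd_self j a).1 ha) hji)

/-- the obvious map onto the indices at most `j` -/
def ff {n : ℕ} (j : Fin n) (a : Fin ((j : ℕ) + 1)) : Fin n := ⟨a, lt_of_lt_of_le a.2 (Nat.succ_le_of_lt j.2)⟩

theorem ff_inj {n : ℕ} (j : Fin n) : Function.Injective (ff j) := by
  intro a b hab
  apply Fin.ext
  have h : (ff j a : ℕ) = (ff j b : ℕ) := congrArg Fin.val hab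
  exact h

theorem ff_le {n : ℕ} (j : Fin n) (a : Fin ((j : ℕ) + 1)) : ff j a ≤ j := Nat.lt_succ_iff.1 a.2

theorem ff_surj {n : ℕ} (j c : Fin n) (h : c ≤ j) : ∃ a, ff j a = c := ⟨⟨c, Nat.lt_succ_iff.2 h⟩, rfl⟩

/-- the order embedding of `bd j j` is the obvious one -/
theorem emb_bd_self {n : ℕ} (j : Fin n) (a : Fin ((j : ℕ) + 1)) : (bd j j le_rfl).emb a = ff j a := by
  have h : ⇑((bd j j le_rfl).emb) = ff j := by
    symm
    refine Finset.orderEmbOfFin_unique _ (fun a => ?_) (fun a b hab => ?_)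
    · rw [mem_bd_self]
      exact ff_le j a
    · exact hab
  exact congrFun h a

theorem ld_eq {n : ℕ} (j : Fin n) (A : Mt n) : ld j A = (A.submatrix (ff j) (ff j)).det := by
  show (A.submatrix (bd j j le_rfl).emb (bd j j le_rfl).emb).det = _
  have h : ⇑((bd j j le_rfl).emb) = ff j := funext fun a => emb_bd_self j a
  rw [h]

theorem ld_lowT {n : ℕ} {l : Mt n} (h : LowT l) (j : Fin n) : ld j l = ∏ i ∈ Finset.Iic j, l i i := by
  rw [ld_eq, Matrix.det_of_isLowerTriangular]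
  · refine Finset.prod_bij (fun a _ => ff j a) ?_ ?_ ?_ ?_
    · intro a _
      rw [Finset.mem_Iic]
      exact ff_le j a
    · intro a _ b _ hab
      exact ff_inj j hab
    · intro b hb
      rw [Finset.mem_Iic] at hb
      obtain ⟨a, ha⟩ := ff_surj j b hb
      exact ⟨a, Finset.mem_univ _, ha⟩
    · intro a _; rfl
  · intro a b hab
    exact h _ _ hab

theorem sub_mul_low {n : ℕ} {l : Mt n} (Y : Mt n) (hl : LowT l) (j : Fin n) :
    (l * Y).submatrix (ff j) (ff j) = l.submatrix (ff j) (ff j) * Y.submatrix (ff j) (ff j) := by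
  classical
  ext a b
  rw [Matrix.submatrix_apply, Matrix.mul_apply, Matrix.mul_apply]
  simp only [Matrix.submatrix_apply]
  have h1 : ∑ c : Fin ((j : ℕ) + 1), l (ff j a) (ff j c) * Y (ff j c) (ff j b) =
      ∑ c ∈ Finset.univ.image (ff j), l (ff j a) c * Y c (ff j b) := by
    rw [Finset.sum_image (fun x _ y _ hxy => ff_inj j hxy)]
  rw [h1]
  symm
  apply Finset.sum_subset (Finset.subset_univ _)
  intro c _ hc
  have h3 : j < c := by
    by_contra hcon
    rw [not_lt] at hcon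
    apply hc
    obtain ⟨a, ha⟩ := ff_surj j c hcon
    rw [Finset.mem_image]
    exact ⟨a, Finset.mem_univ _, ha⟩
  rw [hl _ _ (lt_of_le_of_lt (ff_le j a) h3), zero_mul]

/-- left multiplication by a lower triangular matrix multiplies the leading minors by nonzero factors -/
theorem ld_lowT_mul' {n : ℕ} {l : Mt n} (Y : Mt n) (hl : LowT l) (j : Fin n) :
    ld j (l * Y) = (∏ i ∈ Finset.Iic j, l i i) * ld j Y := by
  rw [← ld_lowT hl j, ld_eq, ld_eq, ld_eq, sub_mul_low Y hl, Matrix.det_mul]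

theorem ld_uppU {n : ℕ} {u : Mt n} (hu : UppU u) (j : Fin n) : ld j u = 1 := by
  rw [ld_eq, Matrix.det_of_isUpperTriangular]
  · exact Finset.prod_eq_one fun i _ => hu.1 _
  · intro a b hab
    exact hu.2 _ _ hab

/-- leading minors of a product of a lower and a unit upper triangular matrix -/
theorem ld_lowT_mul {n : ℕ} {l u : Mt n} (hl : LowT l) (hu : UppU u) (j : Fin n) :
    ld j (l * u) = ∏ i ∈ Finset.Iic j, l i i := by
  rw [ld_lowT_mul' u hl, ld_uppU hu, mul_one]

theorem ld_lowT_mul_ne {n : ℕ} {l u : Mt n} (hl : LowT l) (hd : l.det ≠ 0) (hu : UppU u) (j : Fin n) :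
    ld j (l * u) ≠ 0 := by
  rw [ld_lowT_mul hl hu]
  exact Finset.prod_ne_zero_iff.2 fun i _ => hl.diag_ne hd i

theorem ld_continuous {n : ℕ} (j : Fin n) : Continuous (fun A : Mt n => ld j A) := by
  have h := cp_continuous (n := n) ((j : ℕ) + 1)
  exact (continuous_apply (bd j j le_rfl)).comp ((continuous_apply (bd j j le_rfl)).comp h)

/-! ## Limits -/

theorem tendsto_inv_mt {n : ℕ} {A : ℕ → Mt n} {B : Mt n} (h : Tendsto A atTop (𝓝 B)) (hB : B.det ≠ 0) :
    Tendsto (fun m => (A m)⁻¹) atTop (𝓝 B⁻¹) := by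
  have h1 : Tendsto (fun m => (A m).det) atTop (𝓝 B.det) :=
    ((Continuous.matrix_det continuous_id).tendsto B).comp h
  have h2 : Tendsto (fun m => (A m).adjugate) atTop (𝓝 B.adjugate) :=
    ((Continuous.matrix_adjugate continuous_id).tendsto B).comp h
  have h3 : Tendsto (fun m => (A m).det⁻¹ • (A m).adjugate) atTop (𝓝 (B.det⁻¹ • B.adjugate)) :=
    (h1.inv₀ hB).smul h2
  have e : ∀ C : Mt n, C⁻¹ = C.det⁻¹ • C.adjugate := by
    intro C
    rw [Matrix.inv_def, Ring.inverse_eq_inv']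
  simpa only [e] using h3

theorem tendsto_det_mt {n : ℕ} {A : ℕ → Mt n} {B : Mt n} (h : Tendsto A atTop (𝓝 B)) :
    Tendsto (fun m => (A m).det) atTop (𝓝 B.det) :=
  ((Continuous.matrix_det continuous_id).tendsto B).comp h

theorem eventually_det_ne {n : ℕ} {A : ℕ → Mt n} {B : Mt n} (h : Tendsto A atTop (𝓝 B)) (hB : B.det ≠ 0) :
    ∀ᶠ m in atTop, (A m).det ≠ 0 :=
  (tendsto_det_mt h).eventually_ne hB

theorem tendsto_entry {n : ℕ} {A : ℕ → Mt n} {B : Mt n} (h : Tendsto A atTop (𝓝 B)) (i j : Fin n) :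
    Tendsto (fun m => A m i j) atTop (𝓝 (B i j)) :=
  ((continuous_apply j).tendsto (B i)).comp (((continuous_apply i).tendsto B).comp h)

theorem tendsto_mt_iff {n : ℕ} {A : ℕ → Mt n} {B : Mt n} :
    Tendsto A atTop (𝓝 B) ↔ ∀ i j, Tendsto (fun m => A m i j) atTop (𝓝 (B i j)) := by
  refine ⟨fun h i j => tendsto_entry h i j, fun h => ?_⟩
  exact tendsto_pi_nhds.2 fun i => tendsto_pi_nhds.2 fun j => h i j

theorem eventually_near {n : ℕ} {A : ℕ → Mt n} {B : Mt n} (h : Tendsto A atTop (𝓝 B)) {ε : ℝ} (hε : 0 < ε) :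
    ∀ᶠ m in atTop, near (A m) B ε := by
  have h1 : ∀ i j, ∀ᶠ m in atTop, |A m i j - B i j| ≤ ε := by
    intro i j
    have h2 := (tendsto_entry h i j).eventually (Metric.closedBall_mem_nhds (B i j) hε)
    filter_upwards [h2] with m hm
    rwa [Real.dist_eq] at hm
  have h3 := Filter.eventually_all.2 fun i => Filter.eventually_all.2 fun j => h1 i j
  exact h3

theorem tendsto_of_near {n : ℕ} {A B : ℕ → Mt n} {C : Mt n} (h : Tendsto B atTop (𝓝 C))
    (hn : ∀ m : ℕ, near (A m) (B m) (1 / ((m : ℝ) + 1))) : Tendsto A atTop (𝓝 C) := by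
  rw [tendsto_mt_iff]
  intro i j
  have h1 : Tendsto (fun m => A m i j - B m i j) atTop (𝓝 0) :=
    squeeze_zero_norm (fun m => by rw [Real.norm_eq_abs]; exact hn m i j) tendsto_one_div_add_atTop_nhds_zero_nat
  have h2 := h1.add (tendsto_entry h i j)
  simpa using h2

theorem near.symm {n : ℕ} {A B : Mt n} {ε : ℝ} (h : near A B ε) : near B A ε := fun i j => by
  rw [abs_sub_comm]; exact h i j

theorem near.trans {n : ℕ} {A B C : Mt n} {ε δ : ℝ} (h : near A B ε) (h' : near B C δ) : near A C (ε + δ) := fun i j => by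
  calc |A i j - C i j| = |(A i j - B i j) + (B i j - C i j)| := by ring_nf
    _ ≤ |A i j - B i j| + |B i j - C i j| := abs_add_le _ _
    _ ≤ ε + δ := add_le_add (h i j) (h' i j)

theorem near.mono {n : ℕ} {A B : Mt n} {ε δ : ℝ} (h : near A B ε) (h' : ε ≤ δ) : near A B δ :=
  fun i j => (h i j).trans h'

/-- powers of decreasing numbers form a gap sequence -/
theorem gap_pow {n : ℕ} (μ : Fin n → ℝ) (h0 : ∀ i, μ i ≠ 0) (h : ∀ i j, i < j → |μ j| < |μ i|) :
    Gap (fun m i => μ i ^ m) := by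
  refine ⟨Filter.Eventually.of_forall fun m i => pow_ne_zero m (h0 i), fun i j hij => ?_⟩
  have h1 : (fun m : ℕ => μ j ^ m / μ i ^ m) = fun m : ℕ => (μ j / μ i) ^ m := by
    funext m
    rw [div_pow]
  show Tendsto (fun m : ℕ => μ j ^ m / μ i ^ m) atTop (𝓝 0)
  rw [h1]
  apply tendsto_pow_atTop_nhds_zero_of_abs_lt_one
  rw [abs_div, div_lt_one (abs_pos.2 (h0 i))]
  exact h i j hij

end Pool.Agent.Helper71.PR
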