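import Mathlib

/-!
# Project PR (MP_af9e5e_al): discrete Zariski dense subgroups of `SL_n(ℝ)` of full Prasad-Raghunathan rank

Definitions.
-/

set_option autoImplicit false

namespace Pool.Agent.Helper71.PR

open Matrix Filter Topology

/-! ## The rank of Prasad and Raghunathan -/

/-- `A_i(G)`: the elements whose centralizer has a subgroup of finite index which is free abelian of rank at most `i` -/
def PRA (G : Type) [Group G] (i : ℕ) : Set G :=
  {g | ∃ H : Subgroup G, H ≤ Subgroup.centralizer {g} ∧ (H.subgroupOf (Subgroup.centralizer {g})).FiniteIndex ∧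
    ∃ r ≤ i, Nonempty (H ≃* Multiplicative (Fin r → ℤ))}

/-- `G` is a finite union of translates `f A_i` -/
def Cov (G : Type) [Group G] (i : ℕ) : Prop := ∃ F : Finset G, ∀ x : G, ∃ f ∈ F, f⁻¹ * x ∈ PRA G i

/-- the rank: the least `i` such that `G` is a finite union of translates of `A_i` -/
noncomputable def prRank (G : Type) [Group G] : ℕ := sInf {i | Cov G i}

/-! ## Matrices -/

abbrev Mt (n : ℕ) : Type := Matrix (Fin n) (Fin n) ℝ

abbrev SLn (n : ℕ) : Type := Matrix.SpecialLinearGroup (Fin n) ℝ

/-- Zariski dense in `SL_n(ℝ)`: every polynomial in the entries which vanishes on `Γ` vanishes on `SL_n(ℝ)` -/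
def ZD {n : ℕ} (Γ : Subgroup (SLn n)) : Prop :=
  ∀ p : MvPolynomial (Fin n × Fin n) ℝ, (∀ γ ∈ Γ, MvPolynomial.eval (fun e => γ.1 e.1 e.2) p = 0) →
    ∀ g : SLn n, MvPolynomial.eval (fun e => g.1 e.1 e.2) p = 0

/-- unit lower triangular -/
def LowU {n : ℕ} (L : Mt n) : Prop := (∀ i, L i i = 1) ∧ ∀ i j, i < j → L i j = 0

/-- unit upper triangular -/
def UppU {n : ℕ} (U : Mt n) : Prop := (∀ i, U i i = 1) ∧ ∀ i j, j < i → U i j = 0

/-- lower triangular -/
def LowT {n : ℕ} (L : Mt n) : Prop := ∀ i j, i < j → L i j = 0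

/-- the frame `k` (columns) defines a compact flat of `Γ`: the group of diagonal matrices `a` with `k a k⁻¹ ∈ Γ` is cocompact
in the group of diagonal matrices of determinant one -/
def Flat {n : ℕ} (Γ : Subgroup (SLn n)) (k : Mt n) : Prop :=
  ∃ R : ℝ, ∀ y : Fin n → ℝ, ∑ i, y i = 0 → ∃ γ ∈ Γ, ∃ μ : Fin n → ℝ,
    γ.1 = k * diagonal μ * k⁻¹ ∧ ∀ i, |Real.log |μ i| - y i| ≤ R

/-! ## Compound matrices -/

/-- `r`-element subsets of `Fin n` -/
abbrev JS (r n : ℕ) : Type := {s : Finset (Fin n) // s.card = r}

def JS.emb {r n : ℕ} (I : JS r n) : Fin r ↪o Fin n := I.1.orderEmbOfFin I.2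

/-- compound matrix: all `r × r` minors -/
def cp {n : ℕ} (r : ℕ) (A : Mt n) : Matrix (JS r n) (JS r n) ℝ := fun I K => (A.submatrix I.emb K.emb).det

/-- the index set `{a | a < j} ∪ {i}`, for `j ≤ i` -/
def bd {n : ℕ} (j i : Fin n) (h : j ≤ i) : JS ((j : ℕ) + 1) n :=
  ⟨insert i (Finset.Iio j), by
    rw [Finset.card_insert_of_notMem (by simpa using h), Fin.card_Iio]⟩

/-- leading principal minor of size `j + 1` -/
def ld {n : ℕ} (j : Fin n) (A : Mt n) : ℝ := cp ((j : ℕ) + 1) A (bd j j le_rfl) (bd j j le_rfl)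

/-- sum of the absolute values of the entries -/
def n1 {ι : Type} [Fintype ι] (X : Matrix ι ι ℝ) : ℝ := ∑ a, ∑ b, |X a b|

theorem cauchyBinet {r N : ℕ} (P : Matrix (Fin r) (Fin N) ℝ) (Q : Matrix (Fin N) (Fin r) ℝ) :
    (P * Q).det = ∑ K : JS r N, (P.submatrix id K.emb).det * (Q.submatrix K.emb id).det := by
  classical
  have h1 : (P * Q).det = ∑ f : Fin r → Fin N, (∏ i, P i (f i)) * (Q.submatrix f id).det := by
    have e : (P * Q) = fun i => ∑ j, P i j • Q j := by
      funext i a
      simp [Matrix.mul_apply, Finset.sum_apply]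
    have e2 : (P * Q).det =
        (Matrix.detRowAlternating (n := Fin r) (R := ℝ)).toMultilinearMap
          (fun i => ∑ j, P i j • Q j) := by
      rw [e]; rfl
    rw [e2, MultilinearMap.map_sum]
    refine Finset.sum_congr rfl fun f _ => ?_
    rw [MultilinearMap.map_smul_univ]
    rfl
  rw [h1]
  -- restrict to injective functions
  have h2 : ∑ f : Fin r → Fin N, (∏ i, P i (f i)) * (Q.submatrix f id).det =
      ∑ f ∈ Finset.univ.filter (fun f : Fin r → Fin N => Function.Injective f),
        (∏ i, P i (f i)) * (Q.submatrix f id).det := by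
    rw [Finset.sum_filter]
    refine Finset.sum_congr rfl fun f _ => ?_
    split_ifs with hf
    · rfl
    · have : ∃ a b, f a = f b ∧ a ≠ b := by
        simpa [Function.Injective] using hf
      obtain ⟨a, b, hab, hne⟩ := this
      have : (Q.submatrix f id).det = 0 := by
        apply Matrix.det_zero_of_row_eq hne
        funext c
        simp [Matrix.submatrix_apply, hab]
      rw [this, mul_zero]
  rw [h2]
  have h3 : ∑ f ∈ Finset.univ.filter (fun f : Fin r → Fin N => Function.Injective f),
        (∏ i, P i (f i)) * (Q.submatrix f id).det =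
      ∑ p : JS r N × Equiv.Perm (Fin r),
        (∏ i, P i (p.1.emb (p.2 i))) * (Q.submatrix (fun i => p.1.emb (p.2 i)) id).det := by
    symm
    apply Finset.sum_bij (fun (p : JS r N × Equiv.Perm (Fin r)) _ => fun i => p.1.emb (p.2 i))
    · intro p _
      simp only [Finset.mem_filter, Finset.mem_univ, true_and]
      exact p.1.emb.injective.comp p.2.injective
    · rintro ⟨K, σ⟩ _ ⟨K', σ'⟩ _ h
      have hr : ∀ (K : JS r N) (σ : Equiv.Perm (Fin r)),
          Set.range (fun i => K.emb (σ i)) = (K.1 : Set (Fin N)) := by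
        intro K σ
        have : Set.range (fun i => K.emb (σ i)) = Set.range (K.emb ∘ σ) := rfl
        rw [this, σ.surjective.range_comp]
        exact Finset.range_orderEmbOfFin K.1 K.2
      have hK : K = K' := by
        apply Subtype.ext
        have : (K.1 : Set (Fin N)) = (K'.1 : Set (Fin N)) := by
          rw [← hr K σ, ← hr K' σ']
          exact congrArg Set.range h
        exact_mod_cast this
      subst hK
      have hσ : σ = σ' := by
        apply Equiv.ext
        intro i
        exact K.emb.injective (congrFun h i)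
      rw [hσ]
    · intro f hf
      simp only [Finset.mem_filter, Finset.mem_univ, true_and] at hf
      let K : JS r N := ⟨Finset.univ.image f, by
        rw [Finset.card_image_of_injective _ hf]; simp⟩
      have hK : Set.range K.emb = (K.1 : Set (Fin N)) := Finset.range_orderEmbOfFin K.1 K.2
      have hex : ∀ i, ∃ j, K.emb j = f i := by
        intro i
        have : f i ∈ (K.1 : Set (Fin N)) := by
          simp [K]
        rw [← hK] at this
        exact this
      choose g hg using hex
      have hginj : Function.Injective g := by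
        intro a b hab
        apply hf
        rw [← hg a, ← hg b, hab]
      have hgbij : Function.Bijective g := Finite.injective_iff_bijective.1 hginj
      refine ⟨(K, Equiv.ofBijective g hgbij), Finset.mem_univ _, ?_⟩
      funext i
      exact hg i
    · intro p _
      rfl
  rw [h3, Fintype.sum_prod_type]
  refine Finset.sum_congr rfl fun K _ => ?_
  have h4 : ∀ σ : Equiv.Perm (Fin r), (Q.submatrix (fun i => K.emb (σ i)) id).det =
      (Equiv.Perm.sign σ : ℝ) * (Q.submatrix K.emb id).det := by
    intro σ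
    have := Matrix.det_permute σ (Q.submatrix K.emb id)
    rw [← this]
    rfl
  simp only [h4]
  have h5 : (P.submatrix id K.emb).det = ∑ σ : Equiv.Perm (Fin r),
      (Equiv.Perm.sign σ : ℝ) * ∏ i, P i (K.emb (σ i)) := by
    rw [← Matrix.det_transpose, Matrix.det_apply']
    rfl
  rw [h5, Finset.sum_mul]
  refine Finset.sum_congr rfl fun σ _ => ?_
  ring


theorem cp_mul {n : ℕ} (r : ℕ) (A B : Mt n) : cp r (A * B) = cp r A * cp r B := by
  ext I K
  rw [Matrix.mul_apply]
  have h := cauchyBinet (A.submatrix I.emb id) (B.submatrix id K.emb)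
  have h1 : A.submatrix I.emb id * B.submatrix id K.emb = (A * B).submatrix I.emb K.emb := by
    ext a b
    simp [Matrix.mul_apply]
  rw [h1] at h
  exact h

theorem cp_one {n : ℕ} (r : ℕ) : cp r (1 : Mt n) = 1 := by
  ext I K
  show ((1 : Mt n).submatrix I.emb K.emb).det = _
  by_cases h : I = K
  · subst h
    rw [Matrix.submatrix_one _ I.emb.injective, Matrix.det_one, Matrix.one_apply_eq]
  · rw [Matrix.one_apply_ne h]
    have hex : ∃ i ∈ I.1, i ∉ K.1 := by
      by_contra hcon
      push Not at hcon
      apply h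
      apply Subtype.ext
      exact Finset.eq_of_subset_of_card_le hcon (by rw [I.2, K.2])
    obtain ⟨i, hi, hiK⟩ := hex
    have hi' : i ∈ Set.range (I.1.orderEmbOfFin I.2) := by
      rw [Finset.range_orderEmbOfFin]
      exact hi
    obtain ⟨a, ha⟩ := hi'
    refine Matrix.det_eq_zero_of_row_eq_zero a ?_
    intro b
    rw [Matrix.submatrix_apply, Matrix.one_apply_ne]
    intro hab
    apply hiK
    have h2 : K.emb b ∈ K.1 := Finset.orderEmbOfFin_mem K.1 K.2 b
    rw [← hab] at h2
    have h3 : I.emb a = i := ha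
    rwa [h3] at h2

theorem cp_continuous {n : ℕ} (r : ℕ) : Continuous (fun A : Mt n => cp r A) := by
  refine continuous_pi fun I => continuous_pi fun K => ?_
  exact Continuous.matrix_det (Continuous.matrix_submatrix continuous_id I.emb K.emb)

theorem cp_tendsto {n : ℕ} (r : ℕ) {A : ℕ → Mt n} {B : Mt n} (h : Tendsto A atTop (𝓝 B)) :
    Tendsto (fun m => cp r (A m)) atTop (𝓝 (cp r B)) :=
  ((cp_continuous r).tendsto B).comp h

theorem cp_det_ne {n : ℕ} (r : ℕ) (A : Mt n) (hA : A.det ≠ 0) : (cp r A).det ≠ 0 := by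
  intro h
  have h1 : cp r A * cp r A⁻¹ = 1 := by
    rw [← cp_mul, Matrix.mul_nonsing_inv A (isUnit_iff_ne_zero.2 hA), cp_one]
  have h2 := congrArg Matrix.det h1
  rw [Matrix.det_mul, h, zero_mul, Matrix.det_one] at h2
  exact zero_ne_one h2

end Pool.Agent.Helper71.PR
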