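import Pool.Agent.Helper71.PR.Goals

set_option autoImplicit false

namespace Pool.Agent.Helper71.PR

open Matrix Filter Topology

theorem f3 : G_F3 := by
  intro P L hP0 hL0 hcl hPs hLs hj hm e0 e1 e2 e3
  have J : ∀ (a b c d x : Fin 3 → ℝ) (k : ℝ), a ∈ P → b ∈ P → c ∈ P → d ∈ P → k ≠ 0 → x ≠ 0 →
      x = k • crossProduct (crossProduct a b) (crossProduct c d) → x ∈ P := by
    intro a b c d x k ha hb hc hd hk hx hxe
    have h1 : crossProduct (crossProduct a b) (crossProduct c d) ≠ 0 := by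
      intro h; apply hx; rw [hxe, h, smul_zero]
    have h2 : crossProduct a b ≠ 0 := by
      intro h; apply h1; rw [h]; simp
    have h3 : crossProduct c d ≠ 0 := by
      intro h; apply h1; rw [h]; simp
    rw [hxe]
    exact hPs _ (hm _ (hj a ha b hb h2) _ (hj c hc d hd h3) h1) k hk
  have ne0 : ∀ (x y z : ℝ), (x ≠ 0 ∨ y ≠ 0 ∨ z ≠ 0) → (![x, y, z] : Fin 3 → ℝ) ≠ 0 := by
    intro x y z h he
    have h0 := congrFun he 0
    have h1 := congrFun he 1
    have h2 := congrFun he 2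
    simp at h0 h1 h2
    rcases h with h | h | h
    · exact h h0
    · exact h h1
    · exact h h2
  have p110 : (![1, 1, 0] : Fin 3 → ℝ) ∈ P := by
    refine J _ _ _ _ _ 1 e2 e3 e0 e1 one_ne_zero (ne0 _ _ _ (by norm_num)) ?_
    simp [cross_apply]
  have p101 : (![1, 0, 1] : Fin 3 → ℝ) ∈ P := by
    refine J _ _ _ _ _ (-1) e1 e3 e0 e2 (by norm_num) (ne0 _ _ _ (by norm_num)) ?_
    simp [cross_apply]
  have q : (![0, -1, 1] : Fin 3 → ℝ) ∈ P := by
    refine J _ _ _ _ _ (-1) e1 e2 p110 p101 (by norm_num) (ne0 _ _ _ (by norm_num)) ?_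
    simp [cross_apply]
  have q' : (![0, 1, -1] : Fin 3 → ℝ) ∈ P := by
    have := hPs _ q (-1) (by norm_num)
    simpa using this
  have tr1 : ∀ t : ℝ, (![t, 1, 0] : Fin 3 → ℝ) ∈ P → (![t, 0, 1] : Fin 3 → ℝ) ∈ P := by
    intro t ht
    refine J _ _ _ _ _ (-1) ht q e0 e2 (by norm_num) (ne0 _ _ _ (by norm_num)) ?_
    simp [cross_apply]
  have tr2 : ∀ t : ℝ, (![t, 0, 1] : Fin 3 → ℝ) ∈ P → (![t, 1, 0] : Fin 3 → ℝ) ∈ P := by
    intro t ht
    refine J _ _ _ _ _ (-1) ht q e0 e1 (by norm_num) (ne0 _ _ _ (by norm_num)) ?_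
    simp [cross_apply]
  have hsub : ∀ s t : ℝ, (![s, 1, 0] : Fin 3 → ℝ) ∈ P → (![t, 1, 0] : Fin 3 → ℝ) ∈ P →
      (![s - t, 1, 0] : Fin 3 → ℝ) ∈ P := by
    intro s t hs ht
    have hmid : (![s - t, 1, -1] : Fin 3 → ℝ) ∈ P := by
      refine J _ _ _ _ _ (-1) hs (tr1 t ht) e0 q' (by norm_num) (ne0 _ _ _ (by norm_num)) ?_
      simp [cross_apply]
      try ring_nf
    refine J _ _ _ _ _ 1 e2 hmid e0 e1 (by norm_num) (ne0 _ _ _ (by norm_num)) ?_
    simp [cross_apply]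
  have h1T : (![1, 1, 0] : Fin 3 → ℝ) ∈ P := p110
  have h0T : (![0, 1, 0] : Fin 3 → ℝ) ∈ P := e1
  have hneg : ∀ t : ℝ, (![t, 1, 0] : Fin 3 → ℝ) ∈ P → (![-t, 1, 0] : Fin 3 → ℝ) ∈ P := by
    intro t ht
    have := hsub 0 t h0T ht
    simpa using this
  have hadd : ∀ s t : ℝ, (![s, 1, 0] : Fin 3 → ℝ) ∈ P → (![t, 1, 0] : Fin 3 → ℝ) ∈ P →
      (![s + t, 1, 0] : Fin 3 → ℝ) ∈ P := by
    intro s t hs ht
    have := hsub s (-t) hs (hneg t ht)
    simpa using this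
  have m1 : (![-1, 1, 0] : Fin 3 → ℝ) ∈ P := hneg 1 h1T
  have m1' : (![1, -1, 0] : Fin 3 → ℝ) ∈ P := by
    have := hPs _ m1 (-1) (by norm_num)
    simpa using this
  have tr3 : ∀ t : ℝ, (![t, 1, 0] : Fin 3 → ℝ) ∈ P → (![0, t, 1] : Fin 3 → ℝ) ∈ P := by
    intro t ht
    refine J _ _ _ _ _ 1 (tr1 t ht) m1 e1 e2 (by norm_num) (ne0 _ _ _ (by norm_num)) ?_
    simp [cross_apply]
  have hmul : ∀ s t : ℝ, (![s, 1, 0] : Fin 3 → ℝ) ∈ P → (![t, 1, 0] : Fin 3 → ℝ) ∈ P →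
      (![s * t, 1, 0] : Fin 3 → ℝ) ∈ P := by
    intro s t hs ht
    have hmid : (![s * t, t, 1] : Fin 3 → ℝ) ∈ P := by
      refine J _ _ _ _ _ 1 e2 hs e0 (tr3 t ht) (by norm_num) (ne0 _ _ _ (by norm_num)) ?_
      simp [cross_apply]
    apply tr2
    refine J _ _ _ _ _ (-1) e1 hmid e0 e2 (by norm_num) (ne0 _ _ _ (by norm_num)) ?_
    simp [cross_apply]
  have hinv : ∀ t : ℝ, t ≠ 0 → (![t, 1, 0] : Fin 3 → ℝ) ∈ P → (![t⁻¹, 1, 0] : Fin 3 → ℝ) ∈ P := by
    intro t ht0 ht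
    have h1 : (![1, t⁻¹, 0] : Fin 3 → ℝ) ∈ P := by
      have := hPs _ ht t⁻¹ (inv_ne_zero ht0)
      simpa [ht0] using this
    have h2 : (![0, t⁻¹, 1] : Fin 3 → ℝ) ∈ P := by
      refine J _ _ _ _ _ 1 h1 (tr1 _ m1) e1 e2 (by norm_num) (ne0 _ _ _ (by norm_num)) ?_
      simp [cross_apply]
    apply tr2
    refine J _ _ _ _ _ (-1) h2 m1' e0 e2 (by norm_num) (ne0 _ _ _ (by norm_num)) ?_
    simp [cross_apply]
  have hnat : ∀ n : ℕ, (![(n : ℝ), 1, 0] : Fin 3 → ℝ) ∈ P := by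
    intro n
    induction n with
    | zero => simpa using h0T
    | succ n ih =>
      have := hadd n 1 ih h1T
      simpa using this
  have hint : ∀ n : ℤ, (![(n : ℝ), 1, 0] : Fin 3 → ℝ) ∈ P := by
    intro n
    rcases Int.eq_nat_or_neg n with ⟨m, h | h⟩
    · rw [h]; simpa using hnat m
    · rw [h]
      have := hneg m (hnat m)
      simpa using this
  have hrat : ∀ r : ℚ, (![(r : ℝ), 1, 0] : Fin 3 → ℝ) ∈ P := by
    intro r
    have h1 : (r : ℝ) = (r.num : ℝ) * ((r.den : ℝ))⁻¹ := by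
      rw [← div_eq_mul_inv]
      exact_mod_cast (Rat.num_div_den r).symm
    rw [h1]
    refine hmul _ _ (hint _) (hinv _ ?_ (hnat _))
    exact_mod_cast r.den_nz
  have hT : ∀ t : ℝ, (![t, 1, 0] : Fin 3 → ℝ) ∈ P := by
    intro t
    have hq : ∀ m : ℕ, ∃ r : ℚ, |(r : ℝ) - t| < 1 / ((m : ℝ) + 1) := by
      intro m
      have hpos : (0 : ℝ) < 1 / ((m : ℝ) + 1) := by positivity
      obtain ⟨r, hr1, hr2⟩ := exists_rat_btwn (show t < t + 1 / ((m : ℝ) + 1) by linarith)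
      refine ⟨r, ?_⟩
      rw [abs_lt]
      constructor <;> linarith
    choose r hr using hq
    have hlim : Tendsto (fun m => ((r m : ℚ) : ℝ)) atTop (𝓝 t) := by
      rw [tendsto_iff_norm_sub_tendsto_zero]
      refine squeeze_zero (fun m => norm_nonneg _) (fun m => ?_) tendsto_one_div_add_atTop_nhds_zero_nat
      rw [Real.norm_eq_abs]
      exact (hr m).le
    refine hcl (fun m => ![(r m : ℝ), 1, 0]) _ (fun m => hrat (r m)) ?_ (ne0 _ _ _ (by norm_num))
    rw [tendsto_pi_nhds]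
    intro i
    fin_cases i
    · simpa using hlim
    · simp
    · simp
  have hxy : ∀ x y : ℝ, (![x, y, 1] : Fin 3 → ℝ) ∈ P := by
    intro x y
    refine J _ _ _ _ _ (-1) e1 (tr1 x (hT x)) e0 (tr3 y (hT y)) (by norm_num) (ne0 _ _ _ (by norm_num)) ?_
    simp [cross_apply]
  intro v hv
  by_cases h2 : v 2 = 0
  · by_cases h1 : v 1 = 0
    · have h0 : v 0 ≠ 0 := by
        intro h0
        apply hv
        funext i
        fin_cases i
        · exact h0
        · exact h1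
        · exact h2
      have h := hPs _ e0 (v 0) h0
      have he : (v 0) • (![1, 0, 0] : Fin 3 → ℝ) = v := by
        funext i
        fin_cases i
        · simp
        · simp [h1]
        · simp [h2]
      rwa [he] at h
    · have h := hPs _ (hT (v 0 / v 1)) (v 1) h1
      have he : (v 1) • (![v 0 / v 1, 1, 0] : Fin 3 → ℝ) = v := by
        funext i
        fin_cases i
        · simp; field_simp
        · simp
        · simp [h2]
      rwa [he] at h
  · have h := hPs _ (hxy (v 0 / v 2) (v 1 / v 2)) (v 2) h2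
    have he : (v 2) • (![v 0 / v 2, v 1 / v 2, 1] : Fin 3 → ℝ) = v := by
      funext i
      fin_cases i
      · simp; field_simp
      · simp; field_simp
      · simp
    rwa [he] at h

end Pool.Agent.Helper71.PR
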