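import Pool.Agent.Helper71.PR.Defs

/-!
# Project PR (MP_af9e5e_al): the goals

Main theorem (assembled from the goals below): let `n ≥ 3` and let `Γ ≤ SL_n(ℝ)` be a discrete Zariski dense subgroup whose
Prasad-Raghunathan rank is `n - 1`. Then the compact flats of `Γ` are dense (every `g : SL_n(ℝ)` is a limit of frames `k` such
that `k⁻¹ Γ k` contains a cocompact group of diagonal matrices), every `Γ`-orbit on the full flag variety is dense, and the group
of diagonal matrices acts topologically transitively on `Γ \ SL_n(ℝ)`.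

Every goal is a `Prop`; its docstring is a complete proof. General notation: `cp r A` is the matrix of all `r × r` minors of `A`,
`cp r (A * B) = cp r A * cp r B` (`cp_mul`), `cp r 1 = 1` (`cp_one`), `cp_det_ne`, `cp_tendsto` are proved in `Defs`. `bd j i` is the
index set `{0, …, j-1, i}` (for `j ≤ i`) and `ld j A` is the leading principal minor of size `j + 1`.
-/

set_option autoImplicit false

namespace Pool.Agent.Helper71.PR

open Matrix Filter Topology

/-! ## Some more definitions -/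

/-- no coordinate vanishes eventually, and `a j / a i → 0` for `i < j` -/
def Gap {n : ℕ} (a : ℕ → Fin n → ℝ) : Prop :=
  (∀ᶠ m in atTop, ∀ i, a m i ≠ 0) ∧ ∀ i j, i < j → Tendsto (fun m => a m j / a m i) atTop (𝓝 0)

/-- locally finite -/
def LF {n : ℕ} (Γ : Subgroup (SLn n)) : Prop :=
  ∀ R : ℝ, {γ : SLn n | γ ∈ Γ ∧ ∀ i j, |γ.1 i j| ≤ R}.Finite

/-- entrywise within `ε` -/
def near {n : ℕ} (A B : Mt n) (ε : ℝ) : Prop := ∀ i j, |A i j - B i j| ≤ ε

/-- `M = k diag(μ) k⁻¹` with `|μ_0| > |μ_1| > …` -/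
def RegF {n : ℕ} (M k : Mt n) (μ : Fin n → ℝ) : Prop :=
  k.det ≠ 0 ∧ M = k * diagonal μ * k⁻¹ ∧ ∀ i j, i < j → |μ j| < |μ i|

/-- admissible sets of frames -/
structure Adm {n : ℕ} (Γ : Subgroup (SLn n)) (S : Set (Mt n)) : Prop where
  det : ∀ k ∈ S, k.det ≠ 0
  cl : ∀ (k : ℕ → Mt n) (k0 : Mt n), (∀ m, k m ∈ S) → Tendsto k atTop (𝓝 k0) → k0.det ≠ 0 → k0 ∈ S
  perm : ∀ k ∈ S, ∀ σ : Equiv.Perm (Fin n), k.submatrix id σ ∈ S
  diag : ∀ k ∈ S, ∀ d : Fin n → ℝ, (∀ i, d i ≠ 0) → k * diagonal d ∈ S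
  s3 : ∀ k ∈ S, ∀ k' ∈ S, ∀ u l : Mt n, UppU u → LowT l → l.det ≠ 0 → k * u = k' * l → k * u ∈ S
  inv : ∀ k ∈ S, ∀ γ ∈ Γ, γ.1 * k ∈ S

/-- the invertible limits of frames of compact flats -/
def clS {n : ℕ} (Γ : Subgroup (SLn n)) : Set (Mt n) :=
  {k | k.det ≠ 0 ∧ k ∈ closure {k' : Mt n | k'.det ≠ 0 ∧ Flat Γ k'}}

/-- the frames of compact flats are dense among all invertible matrices -/
def Dens {n : ℕ} (Γ : Subgroup (SLn n)) : Prop :=
  ∀ g : Mt n, g.det ≠ 0 → ∀ ε > 0, ∃ k : Mt n, k.det ≠ 0 ∧ Flat Γ k ∧ near k g ε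

/-! ## Zariski density -/

/-- **IRR**. Finitely many polynomials, each not identically zero on `SL_n(ℝ)`: some `γ ∈ Γ` is a zero of none of them.

Proof. `Γ` is Zariski dense, so (contrapositive of `ZD` for the product polynomial `∏ p i`) it is enough to find `g : SLn n` with
all `p i (g) ≠ 0`. Claim: for every `p` there are `d : ℕ` and a polynomial `q` such that for all `X : Mt n` with `det X ≠ 0`
`eval X q = (det X)^d * eval (X * diagonal δ) p`, where `δ 0 = (det X)⁻¹` and `δ j = 1` for `j ≠ 0`. Proof of the claim by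
`MvPolynomial.induction_on`: for a constant take `d = 0`, `q = p`; for a sum with data `(d₁,q₁)`, `(d₂,q₂)` take `d = d₁ + d₂` and
`q = D^{d₂} q₁ + D^{d₁} q₂` with `D = Matrix.det (Matrix.mvPolynomialX (Fin n) (Fin n) ℝ)`; for `p * X (i,j)` take `d + 1` and
`q * X (i,j)` if `j = 0` and `q * X (i,j) * D` if `j ≠ 0` (the `(i,j)` entry of `X * diagonal δ` is `X i j * δ j`). If
`p(g) ≠ 0` for some `g : SLn n` then `q(g) = p(g) ≠ 0`, as `det g = 1` and `δ = 1`. So all `q i` are nonzero polynomials; `D` is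
nonzero (its value at `1` is `1`). `MvPolynomial _ ℝ` is a domain, so `D * ∏ q i ≠ 0`, and (`MvPolynomial.funext`) there is `X`
with `det X ≠ 0` and all `q i (X) ≠ 0`. Then `g = X * diagonal δ` has determinant `1` and `p i (g) ≠ 0` for all `i`. -/
def G_IRR : Prop :=
  ∀ (n : ℕ), 1 ≤ n → ∀ (Γ : Subgroup (SLn n)), ZD Γ → ∀ (ι : Type) [Fintype ι] (p : ι → MvPolynomial (Fin n × Fin n) ℝ),
    (∀ i, ∃ g : SLn n, MvPolynomial.eval (fun e => g.1 e.1 e.2) (p i) ≠ 0) →
    ∃ γ ∈ Γ, ∀ i, MvPolynomial.eval (fun e => γ.1 e.1 e.2) (p i) ≠ 0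

/-- **N1**. The matrix coefficients of the exterior powers do not vanish identically on `SL_n(ℝ)`.

Proof. Let `f A = α ⬝ᵥ (cp r A *ᵥ β)` and suppose `f = 0` on `SL_n`. `f` is a polynomial in the entries, homogeneous of degree
`r`: `f (c • A) = c^r f A` (`cp r (c • A) = c^r • cp r A` by `Matrix.det_smul`). If `n = 0` the condition `α ≠ 0` forces `r = 0`
(otherwise `JS r 0` is empty), `JS 0 0` has exactly one element, and `f 1 = α ∅ * β ∅ ≠ 0`. Let `n ≥ 1`. If `det A > 0` then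
`A = c • g` with `c = (det A)^(1/n) > 0` and `g ∈ SL_n`, so `f A = 0`. Let `A` be arbitrary. `t ↦ f (1 + t • A)` is a polynomial
in `t` (it is `α ⬝ᵥ (cp r (1 + t A) *ᵥ β)`, the determinants of submatrices of `1 + tA` being polynomials in `t`); it vanishes for
all small `t`, as `det (1 + tA) → 1`. So it vanishes for all `t`. For `t > 0`,
`f (t⁻¹ • 1 + A) = t^{-r} f (1 + t A) = 0`; let `t → ∞`: by continuity `f A = 0`. So `f` vanishes identically on `Mt n`. Now choose
`I, K : JS r n` with `α I ≠ 0`, `β K ≠ 0` and `A = ∑ a : Fin r, Matrix.single (I.emb a) (K.emb a) 1`. Then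
`cp r A I' K' = 1` if `I' = I, K' = K`, and `0` otherwise: if `I' ≠ I` there is an element of `I'` not in `I`
(equal cardinalities), hence a zero row in the submatrix; similarly a zero column if `K' ≠ K`; and the submatrix `A[I,K]` is the
identity. So `f A = α I * β K ≠ 0`, a contradiction. -/
def G_N1 : Prop :=
  ∀ (n r : ℕ) (α β : JS r n → ℝ), α ≠ 0 → β ≠ 0 → ∃ g : SLn n, α ⬝ᵥ (cp r g.1 *ᵥ β) ≠ 0

/-- **N**. Finitely many matrix coefficients of exterior powers are simultaneously nonzero at some `γ ∈ Γ`.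

Proof. `α i ⬝ᵥ (cp (r i) g *ᵥ β i)` is the value at `g` of the polynomial
`∑ I, ∑ K, C (α i I * β i K) * det ((Matrix.mvPolynomialX (Fin n) (Fin n) ℝ).submatrix I.emb K.emb)` (`eval` is a ring homomorphism,
`RingHom.map_det`). By `G_N1` it is nonzero somewhere on `SL_n`. Apply `G_IRR`. -/
def G_N : Prop :=
  ∀ (n : ℕ), 1 ≤ n → ∀ (Γ : Subgroup (SLn n)), ZD Γ → ∀ (ι : Type) [Fintype ι] (r : ι → ℕ) (α β : ∀ i, JS (r i) n → ℝ),
    (∀ i, α i ≠ 0) → (∀ i, β i ≠ 0) → ∃ γ ∈ Γ, ∀ i, α i ⬝ᵥ (cp (r i) γ.1 *ᵥ β i) ≠ 0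

/-! ## Rank one limits -/

/-- **DETC**. Strict log-concavity of the determinant at the midpoint.

Proof. `A = Cᵀ C` with `C` invertible (e.g. `C` = the square root of `A`). `M := C⁻ᵀ B C⁻¹` is positive definite with
determinant `1`, and `M ≠ 1` as `A ≠ B`. Let `m i > 0` be its eigenvalues, `∏ m i = 1`. Not all `m i` are `1` (a real symmetric
matrix with all eigenvalues `1` is `1`, spectral theorem). `det ((A + B)/2) = det A * det ((1 + M)/2) = det A * ∏ (1 + m i)/2`,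
and `(1 + m)/2 ≥ √m` with equality only for `m = 1`, so the product is `> ∏ √(m i) = 1`. -/
def G_DETC : Prop :=
  ∀ (ρ : ℕ) (A B : Mt ρ), A.PosDef → B.PosDef → A.det = B.det → A ≠ B → A.det < ((1 / 2 : ℝ) • (A + B)).det

/-- **INV**. A compact semigroup of matrices of determinant `±1` preserves a positive definite form.

Proof. Let `C` be the convex hull of `{Bᵀ * B | B ∈ K}`. Facts. (i) all elements of `C` are positive definite (the matrices
`Bᵀ B`, `B` invertible, are, and positive definite matrices form a convex set). (ii) `C` is compact (convex hull of a compact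
subset of a finite dimensional space; if this is missing in Mathlib use Caratheodory, or replace `C` by the closure of the convex
hull: there is `c > 0` with `xᵀ BᵀB x ≥ c` for all unit vectors `x` and all `B ∈ K` by compactness, and this inequality
survives convex combinations and limits, so all elements of the closure are positive definite; it is bounded, hence compact).
(iii) for `A ∈ K` the linear map `Q ↦ Aᵀ Q A` maps `C` into itself, because `Aᵀ (BᵀB) A = (BA)ᵀ (BA)` and `BA ∈ K`. The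
continuous function `det` attains its maximum on `C` at some `Q`. For `A ∈ K` the element `Q' = Aᵀ Q A ∈ C` has
`det Q' = (det A)^2 det Q = det Q`. If `Q' ≠ Q` then by `G_DETC` the element `(Q + Q')/2 ∈ C` has a larger determinant, a
contradiction. So `Aᵀ Q A = Q`. -/
def G_INV : Prop :=
  ∀ (ρ : ℕ) (K : Set (Mt ρ)), IsCompact K → K.Nonempty → (∀ A ∈ K, ∀ B ∈ K, A * B ∈ K) → (∀ A ∈ K, |A.det| = 1) →
    ∃ Q : Mt ρ, Q.PosDef ∧ ∀ A ∈ K, Aᵀ * Q * A = Q

/-- **SG**. Structure at the minimal rank of a closed semigroup cone of matrices.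

Proof. Let `ρ > 0` be the minimal rank of a nonzero element of `S` and let `P ∈ S` have rank `ρ`. Rank factorization: `P = U * V`
with `U : ι × ρ`, `V : ρ × ι`; `U` has a left inverse `U'`, `V` a right inverse `V'`. Let `C = {B : Mt ρ | U * B * V ∈ S}`: a
closed set, closed under multiplication by scalars, and every nonzero `B ∈ C` is invertible (`U B V ≠ 0` as
`U' (U B V) V' = B`; the rank of `U B V` is at most the rank of `B`, and at least `ρ` by minimality). For `h ∈ S` put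
`φ h = V * h * U : Mt ρ`. `T = {φ h | h ∈ S}` satisfies `T ⊆ C` (`U (V h U) V = P h P ∈ S`), `T` is closed under scalar
multiplication and under multiplication: `φ h * φ h' = V (h P h') U = φ (h P h')`. If `φ h = 0` for all `h ∈ S` take `Q = 1` and
`c = 0`. Otherwise let `K₀ = {B ∈ T | |det B| = 1}` and `K` the closure of `K₀`. `K₀` is nonempty (a nonzero element of `T ⊆ C`
is invertible, divide it by `|det|^(1/ρ)`), closed under multiplication, hence so is `K`; `K ⊆ C` and `|det| = 1` on `K`. `K` is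
bounded: otherwise there are `B_m ∈ K` with `‖B_m‖ → ∞`, and a subsequence of `B_m / ‖B_m‖ ∈ C` converges to some `B ∈ C` of
norm `1` with `|det B| = lim |det B_m| / ‖B_m‖^ρ = 0`, contradicting the invertibility of the nonzero elements of `C`. So `K` is
compact and `G_INV` gives a positive definite `Q` with `Aᵀ Q A = Q` for `A ∈ K`. Let `h ∈ S`. If `φ h = 0` take `c = 0`. If not,
`φ h = s • A` with `s = |det (φ h)|^(1/ρ) > 0`, `A ∈ K₀`, and `c = s^2`. -/
def G_SG : Prop :=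
  ∀ (ι : Type) [Fintype ι] [DecidableEq ι] (S : Set (Matrix ι ι ℝ)), IsClosed S → (∀ A ∈ S, ∀ B ∈ S, A * B ∈ S) →
    (∀ (t : ℝ), ∀ A ∈ S, t • A ∈ S) → (∃ A ∈ S, A ≠ 0) →
    ∃ (ρ : ℕ) (U : Matrix ι (Fin ρ) ℝ) (V : Matrix (Fin ρ) ι ℝ) (U' : Matrix (Fin ρ) ι ℝ) (V' : Matrix ι (Fin ρ) ℝ) (Q : Mt ρ),
      0 < ρ ∧ U' * U = 1 ∧ V * V' = 1 ∧ U * V ∈ S ∧ Q.PosDef ∧
      ∀ h ∈ S, ∃ c : ℝ, (V * h * U)ᵀ * Q * (V * h * U) = c • Q

/-- **MR**. For one `r`: a sequence in `Γ` whose `r`-th compound matrices, rescaled, converge to a rank one matrix.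

Proof. `JS r n` is nonempty as `r ≤ n`. Let `S` be the closure of `{t • cp r γ | t : ℝ, γ ∈ Γ}` in
`Matrix (JS r n) (JS r n) ℝ`. It is closed, closed under multiplication (the set is, by `cp_mul`, and multiplication is
continuous) and under scalars, and contains `cp r 1 = 1 ≠ 0`. Take `ρ, U, V, U', V', Q` from `G_SG`. Put
`B h = V * cp r h * U` for `h : SLn n`.
Step 1: for all `h : SLn n` and all `a b c d : Fin ρ`: `(BᵀQB) a b * Q c d = (BᵀQB) c d * Q a b` (`B = B h`). For `h ∈ Γ` this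
holds since `BᵀQB` is a multiple of `Q`. Both sides are polynomials in the entries of `h`, so it holds on `SL_n` by `ZD`.
Step 2: hence the identity also holds with `B = V * X * U` for every limit `X` of matrices `t_m • cp r h_m`, `h_m : SLn n`
(scaling both sides by `t_m^2`, continuity).
Step 3: `ρ = 1`. If `r = n` then `JS n n` has exactly one element, and the claim of the goal is trivial: take `γ m = 1`,
`t m = 1`, `a = b = 1`, `cp n 1 = 1 = vecMulVec 1 1`. (Treat this case separately, at the beginning.) Let `r < n`; if `r = 0`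
again `JS 0 n` has one element and the claim is trivial in the same way. Let `0 < r < n`, and for `s ≥ 1` let `D_s` be the
diagonal matrix with first `r` entries equal to `s^(n-r)` and the others `s^{-r}`; its determinant is `1`. `cp r D_s` is diagonal
with entries `∏_{i ∈ I} D_s i`, and for `I₀ = {0, …, r-1}` the quotient `cp r D_s / s^{r(n-r)}` tends to the matrix unit
`E = single I₀ I₀ 1` (for `I ≠ I₀` some factor `s^(n-r)` is replaced by `s^{-r}`). So for all `g₁ g₂ : SLn n` the matrix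
`X = cp r g₁ * E * cp r g₂` is a limit as in Step 2. Choose by `G_N1` `g₁` with `V * cp r g₁ * e_{I₀} ≠ 0` (some row `α` of `V` is
nonzero as `V V' = 1` and `ρ > 0`; `β = e_{I₀}`) and `g₂` with `e_{I₀}ᵀ * cp r g₂ * U ≠ 0` (some column of `U` is nonzero). Then
`B = V X U = x yᵀ` with nonzero vectors `x = V cp(g₁) e_{I₀}`, `y = (e_{I₀}ᵀ cp(g₂) U)ᵀ`. So `BᵀQB = (xᵀ Q x) y yᵀ` with
`xᵀ Q x > 0`, and by Step 2 with `c = d` any index: `(xᵀQx) y y ᵀ Q c c = (xᵀQx) (y c)^2 Q`; choosing `c` with `y c ≠ 0` we see that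
`Q` is a multiple of `y yᵀ`, a matrix of rank `1`; as `Q` is invertible `ρ = 1`.
Step 4: so `P = U * V ∈ S` is `vecMulVec a b` with `a = U · 0`, `b = V 0 ·`, both nonzero (`U' U = 1`, `V V' = 1`). As `P` is in
the closure, there is a sequence (`mem_closure_iff_seq_limit`) `t_m • cp r γ_m → P` with `γ_m ∈ Γ`. -/
def G_MR : Prop :=
  ∀ (n : ℕ), 1 ≤ n → ∀ Γ : Subgroup (SLn n), ZD Γ → ∀ r, r ≤ n →
    ∃ (γ : ℕ → SLn n) (t : ℕ → ℝ) (a b : JS r n → ℝ), (∀ m, γ m ∈ Γ) ∧ a ≠ 0 ∧ b ≠ 0 ∧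
      Tendsto (fun m => t m • cp r (γ m).1) atTop (𝓝 (vecMulVec a b))

/-- **SEQ**. One sequence in `Γ` good for all `r ≤ n` at the same time.

Proof. Call a sequence `γ m ∈ Γ` *nice* if for every `r ≤ n` there are `t` and `X r ≠ 0` with `t m r • cp r (γ m) → X r`. Every
sequence in `Γ` has a nice subsequence: `cp r (γ m) / n1 (cp r (γ m))` lies in the compact set `{X | n1 X = 1}` (`cp r` of an
invertible matrix is invertible, hence nonzero, for `r ≤ n`), pass to subsequences for `r = 0, …, n` one after the other (or use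
compactness of the product over `r : Fin (n+1)`). If moreover `t' m • cp r (γ m) → Y ≠ 0` with another normalization then
`X r` is a nonzero multiple of `Y` : (`n1 (t' m • cp r (γ m)) → n1 Y`, so `|t' m| n1 (cp r (γ m)) → n1 Y > 0`; on a subsequence
`t' m` has constant sign). So if a sequence has a rank one limit for some `r` for one normalization it does so for the nice
normalization (`vecMulVec a b` rescaled). Now show by induction on `s ≤ n + 1`: there is a nice sequence in `Γ` such that `X r` is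
of the form `vecMulVec a b` (`a, b ≠ 0`) for all `r < s`. Start: any nice sequence. Step: let `γ m` be nice and good for all
`r < s`, let `δ m` be a sequence as in `G_MR` for `r = s` (if `s ≤ n`), pass to a nice subsequence of it, with limits `Y r ≠ 0`,
`Y s = vecMulVec a b`. Choose by `G_N` (index set `Fin (n+1)`) an `h ∈ Γ` with `X r * cp r h * Y r ≠ 0` for all `r ≤ n`: take for `α r` a
nonzero row of `X r` and for `β r` a nonzero column of `Y r`; then some entry of the product is `α r ⬝ᵥ (cp r h *ᵥ β r) ≠ 0`. The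
sequence `γ m * h * δ m ∈ Γ` is nice: `(t m r * t' m r) • cp r (γ m h δ m) → X r * cp r h * Y r ≠ 0`; for `r < s` this is
`vecMulVec a (b ᵥ* (cp r h * Y r))` and for `r = s` it is `vecMulVec ((X s * cp s h) *ᵥ a) b`, in both cases of the form
`vecMulVec a' b'` with `a', b' ≠ 0` (as the product is `≠ 0`). -/
def G_SEQ : Prop :=
  ∀ (n : ℕ), 1 ≤ n → ∀ Γ : Subgroup (SLn n), ZD Γ →
    ∃ (γ : ℕ → SLn n) (t : ℕ → ℕ → ℝ) (a b : ∀ r, JS r n → ℝ), (∀ m, γ m ∈ Γ) ∧
      ∀ r ≤ n, a r ≠ 0 ∧ b r ≠ 0 ∧ Tendsto (fun m => t m r • cp r (γ m).1) atTop (𝓝 (vecMulVec (a r) (b r)))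

/-! ## LDU decompositions -/

/-- **LDU1**. LDU decomposition of a matrix with nonzero leading minors, with the formulas for `L`, `U`, `d` by minors.

Proof. Existence (all leading minors nonzero): by induction on `n`, removing the last row and column. Or in one stroke: Mathlib
may have a Schur complement / LDL machinery, but the direct way is as follows. Write `Y` in blocks with `Y'` the upper left
`(n-1) × (n-1)` block, last column `c`, last row `r`, corner `s`. `Y' = L' D' U'` by induction. Put `L = [[L',0],[r U'⁻¹ D'⁻¹, 1]]`,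
`U = [[U', D'⁻¹ L'⁻¹ c],[0,1]]`, `d_last = s - r Y'⁻¹ c`; `det Y = det Y' * d_last` shows `d_last ≠ 0`.
Formulas. Let `Y = L diag(d) U` and `D_j = d_0 ⋯ d_j`. For `b ≤ j` and any row `a`: `Y a b = ∑_{c ≤ b} L a c * d c * U c b`, only
`c ≤ j` contributes. So for `i ≥ j` the submatrix of `Y` with rows `{0..j-1, i}` and columns `{0..j}` is the product of
`L[{0..j-1,i}, {0..j}]` (lower triangular with diagonal `1, …, 1, L i j`), `diag(d_0..d_j)` and `U[{0..j},{0..j}]` (unit upper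
triangular). Its determinant is `L i j * D_j`. With `i = j` this gives `ld j Y = D_j`. The formula for `U` is the transpose.
Last formula, `i = j + 1`: the submatrix of `Y` with rows and columns `{0..j-1, i}` is, with `c` running through `{0..j-1}` and
the two further indices `j`, `i` contributing to the corner only, equal to `L̃ diag(d_0, …, d_{j-1}, σ) Ũ` where
`L̃ = [[L_{<j,<j}, 0],[L_{i,<j}, 1]]`, `Ũ = [[U_{<j,<j}, U_{<j,i}],[0,1]]` and `σ = L i j * d j * U j i + d i`. So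
`cp (j+1) Y (bd j i) (bd j i) = D_{j-1} (L i j * d j * U j i + d i)`, where `D_{j-1} d j = D_j = ld j Y`. Hence
`cp(i,i) * ld - cp(j,i) cp(i,j) = D_{j-1} (L_ij d_j U_ji + d_i) D_j - (D_j U_ji)(D_j L_ij) = D_{j-1} D_j d_i`, and multiplying by
`d j` gives `D_j^2 d i`. -/
def G_LDU1 : Prop :=
  ∀ (n : ℕ) (Y : Mt n), (∀ j, ld j Y ≠ 0) → ∃ (L U : Mt n) (d : Fin n → ℝ), LowU L ∧ UppU U ∧ (∀ j, d j ≠ 0) ∧
    Y = L * diagonal d * U ∧
    (∀ (i j : Fin n) (h : j ≤ i), L i j * ld j Y = cp ((j : ℕ) + 1) Y (bd j i h) (bd j j le_rfl)) ∧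
    (∀ (i j : Fin n) (h : j ≤ i), U j i * ld j Y = cp ((j : ℕ) + 1) Y (bd j j le_rfl) (bd j i h)) ∧
    (∀ (i j : Fin n) (h : j ≤ i), (i : ℕ) = j + 1 → d i * (ld j Y) ^ 2 =
      d j * (cp ((j : ℕ) + 1) Y (bd j i h) (bd j i h) * ld j Y -
        cp ((j : ℕ) + 1) Y (bd j j le_rfl) (bd j i h) * cp ((j : ℕ) + 1) Y (bd j i h) (bd j j le_rfl)))

/-- **LDUS**. LDU decompositions of a sequence whose rescaled compounds converge to matrices with nonzero leading entry.

Proof. Since `t m j * ld j (Y m) → X j (lead) ≠ 0`, eventually `ld j (Y m) ≠ 0` and `t m j ≠ 0` for all `j`. For those `m` use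
`G_LDU1`; for the other `m` put `L m = U m = 1`, `d m = 1`. By the formulas, for `j ≤ i`,
`L m i j = (t cp(bd j i)(bd j j)) / (t ld j) → X j (bd j i)(bd j j) / X j (lead)` and similarly for `U m j i`; the other entries are
constant `0`, the diagonal is `1`. So `L m → L0`, `U m → U0`. For `i = j + 1`:
`d m i / d m j = (cp cp - cp cp) / ld^2 = ((t cp)(t cp) - (t cp)(t cp)) / (t ld)^2 → (X(i,i) X(j,j) - X(j,i) X(i,j)) / X(j,j)^2`
(abbreviating `X(a,b) = X j (bd j a) (bd j b)`), so these ratios converge, and the limit is `0` if all `2 × 2` minors of `X j`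
vanish. For arbitrary `i < j` the ratio `d m j / d m i` is the product of the consecutive ones, so it converges too, to `0` if the
`2 × 2` minors vanish; take for `C` a common bound. -/
def G_LDUS : Prop :=
  ∀ (n : ℕ) (Y : ℕ → Mt n) (t : ℕ → Fin n → ℝ) (X : ∀ j : Fin n, Matrix (JS ((j : ℕ) + 1) n) (JS ((j : ℕ) + 1) n) ℝ),
    (∀ j, Tendsto (fun m => t m j • cp ((j : ℕ) + 1) (Y m)) atTop (𝓝 (X j))) →
    (∀ j, X j (bd j j le_rfl) (bd j j le_rfl) ≠ 0) →
    ∃ (L U : ℕ → Mt n) (d : ℕ → Fin n → ℝ) (L0 U0 : Mt n) (C : ℝ), (∀ m, LowU (L m)) ∧ (∀ m, UppU (U m)) ∧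
      LowU L0 ∧ UppU U0 ∧ Tendsto L atTop (𝓝 L0) ∧ Tendsto U atTop (𝓝 U0) ∧
      (∀ (i j : Fin n) (h : j ≤ i), L0 i j * X j (bd j j le_rfl) (bd j j le_rfl) = X j (bd j i h) (bd j j le_rfl)) ∧
      (∀ (i j : Fin n) (h : j ≤ i), U0 j i * X j (bd j j le_rfl) (bd j j le_rfl) = X j (bd j j le_rfl) (bd j i h)) ∧
      (∀ m j, d m j ≠ 0) ∧
      (∀ᶠ m in atTop, Y m = L m * diagonal (d m) * U m) ∧
      (∀ᶠ m in atTop, ∀ i j, i < j → |d m j| ≤ C * |d m i|) ∧
      ((∀ j, ∀ I K I' K', X j I K * X j I' K' = X j I K' * X j I' K) →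
        ∀ i j, i < j → Tendsto (fun m => d m j / d m i) atTop (𝓝 0))

/-- **UNI**. Uniqueness: if `l u = l' u'` with `l, l'` invertible lower triangular and `u, u'` unit upper triangular then `u = u'`.

Proof. `l'⁻¹ l = u' u⁻¹` is both lower triangular and unit upper triangular, hence equal to `1`. Elementary version without
inverses: show by strong induction on the row `i` that row `i` of `u` and `u'` agree and column `i` of `l` and `l'` agree: comparing
entries `(a, i)` with `a ≥ i` of `l u = l' u'`: `∑_{c ≤ i} l a c u c i`, the terms `c < i` agree by induction, `c = i` gives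
`l a i = l' a i`; comparing the entries `(i, b)`, `b ≥ i`: the terms `c < i` agree, and `c = i` gives `l i i u i b = l' i i u' i b`
with `l i i ≠ 0` as `det l ≠ 0` is the product of the diagonal entries. -/
def G_UNI : Prop :=
  ∀ (n : ℕ) (l l' u u' : Mt n), LowT l → LowT l' → l.det ≠ 0 → l'.det ≠ 0 → UppU u → UppU u' → l * u = l' * u' → u = u'

/-- **CJ**. Conjugation by large diagonal matrices contracts unit triangular matrices.

Proof. The `(i,j)` entry of `diag(a) L diag(a)⁻¹` is `a i * L i j / a j`: for `i < j` it is `0`, for `i = j` it is `1` (once all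
`a m i ≠ 0`), and for `j < i` the factor `a m i / a m j` tends to `0` while `L m i j` converges. The other two claims in the same
way: the `(i,j)` entry of `diag(a)⁻¹ U diag(a)` is `(a m j / a m i) U m i j`. -/
def G_CJ : Prop :=
  ∀ (n : ℕ) (a : ℕ → Fin n → ℝ), Gap a →
    (∀ (L : ℕ → Mt n) (L0 : Mt n), (∀ m, LowU (L m)) → Tendsto L atTop (𝓝 L0) →
      Tendsto (fun m => diagonal (a m) * L m * diagonal (fun i => (a m i)⁻¹)) atTop (𝓝 1)) ∧
    (∀ (U : ℕ → Mt n) (U0 : Mt n), (∀ m, UppU (U m)) → Tendsto U atTop (𝓝 U0) →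
      Tendsto (fun m => diagonal (fun i => (a m i)⁻¹) * U m * diagonal (a m)) atTop (𝓝 1))

/-! ## Regular elements -/

/-- **EIG**. A small perturbation of a diagonal matrix with large gaps is diagonalizable, with eigenvectors close to the standard
ones.

Proof. We may assume `n ≥ 1` and `ε ≤ 1/(2n)`. Let `η = E - 1`, `|η a b| ≤ κ` where `κ` is small, to be chosen (`κ = ε/(100 n)` is fine), and
`K = 100`. Fix `j`. Consider vectors `w : Fin n → ℝ` in the complete metric space `B = {w | w j = 1, |w i| ≤ 1}` (sup metric). For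
`w ∈ B`, `|(η w) i| ≤ nκ`. For `i ≠ j` put `N_i(w) = (Δ j / Δ i) (1 + (η w) j) - 1` and `Φ(w) i = (η w) i / N_i(w)`, `Φ(w) j = 1`.
Estimates: if `i < j`, `|Δ j/Δ i| ≤ 1/K`, so `|N_i| ≥ 1/2`; if `i > j`, `q = |Δ j/Δ i| ≥ K`, so `|N_i| ≥ q/2 - 1 ≥ q/4`. So
`|Φ(w) i| ≤ 2 n κ ≤ 1`, `Φ` maps `B` to `B`. `Φ` is a contraction: `Φ(w) i - Φ(w') i = (η(w-w')) i / N_i(w) +
(η w') i (N_i(w') - N_i(w)) / (N_i(w) N_i(w'))`, the first term is at most `2nκ ‖w-w'‖`, the second is at most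
`nκ * q nκ ‖w-w'‖ * 16/q²` (`i > j`) or `nκ * (nκ/K) ‖w-w'‖ * 4` (`i < j`); so the Lipschitz constant is at most `1/2`. Let `w` be the
fixed point (Banach), `λ = Δ j (1 + (η w) j)` and `v i = w i * Δ j / Δ i` (so `v j = 1`). Then `E Δ v = λ v` : the `i`-th
coordinate of `Δ v` is `w i Δ j`; for `i ≠ j` the fixed point equation says `w i + (η w) i = w i (Δ j/Δ i)(1 + (η w) j)`, i.e.
`(E (Δ v)) i = Δ j (w i + (η w) i) = λ w i Δ j/Δ i = λ v i`, and for `i = j`: `Δ j (1 + (η w) j) = λ = λ v j`. Size of `v`: for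
`i < j`: `|v i| ≤ |w i|/K ≤ 2nκ`. For `i > j`: `|v i| = q |(η w) i|/|N_i| ≤ 4 n κ`. So the matrix `k` with columns `v^{(j)}` has
diagonal entries `1` and other entries at most `4nκ ≤ ε` in absolute value; it is strictly diagonally dominant, so `det k ≠ 0`
(`det_ne_zero_of_sum_row_lt_diag`). `l j = λ^{(j)}` satisfies `|Δ j|/2 ≤ |l j| ≤ 2 |Δ j|`, so for `i < j`
`|l j| ≤ 2 |Δ j| ≤ (2/K) |Δ i| < |Δ i|/2 ≤ |l i|`, and `l j ≠ 0`. -/
def G_EIG : Prop :=
  ∀ (n : ℕ), ∀ ε > 0, ∃ κ > 0, ∃ K : ℝ, ∀ (E : Mt n) (Δ : Fin n → ℝ), near E 1 κ → (∀ i, Δ i ≠ 0) →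
    (∀ i j, i < j → K * |Δ j| ≤ |Δ i|) →
    ∃ (k : Mt n) (l : Fin n → ℝ), k.det ≠ 0 ∧ near k 1 ε ∧ E * diagonal Δ * k = k * diagonal l ∧
      (∀ i, l i ≠ 0) ∧ ∀ i j, i < j → |l j| < |l i|

/-- **R4**. Regularity of products `p_m diag(a_m) q_m⁻¹` when the attracting flag of the limit `P` and the repelling flag of the
limit `Q` are transversal, in the form `P u = Q l`.

Proof. For large `m` the matrices `p m`, `q m` are invertible and all `a m i ≠ 0`. Put `c_m = p m * u → P u`, invertible for large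
`m`. Then `c_m⁻¹ (p_m diag(a_m) q_m⁻¹) c_m = u⁻¹ diag(a_m) (q_m⁻¹ p_m u) = diag(a_m) N_m`, with
`N_m = (diag(a_m)⁻¹ u⁻¹ diag(a_m)) (q_m⁻¹ p_m u) → 1 * (Q⁻¹ P u) = l` (by `G_CJ` for the constant sequence `u⁻¹`, which is again
`UppU`). Apply `G_LDUS` to `Y = N`, `t = 1`, `X j = cp (j+1) l`; the leading entry of `cp (j+1) l` is `l 0 0 ⋯ l j j ≠ 0`. We get
`N_m = L_m diag(d_m) U_m` eventually, `L_m → L0`, `U_m → U0`, `|d_m j| ≤ C |d_m i|` for `i < j`. Moreover `U0 = 1`: for `j < i`,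
`U0 j i * (lead) = cp (j+1) l (bd j j) (bd j i) = 0` because the column `i` of `l` has zero entries in the rows `0, …, j`. Now
`diag(a_m) N_m = (diag(a_m) L_m diag(a_m)⁻¹) diag(a_m d_m) U_m` with `L'_m := diag(a_m) L_m diag(a_m)⁻¹ → 1` by `G_CJ`.
Conjugating by `U_m`: `U_m (diag(a_m) N_m) U_m⁻¹ = (U_m L'_m) diag(Δ_m)`, `Δ_m = a_m d_m`, `E_m = U_m L'_m → 1`. The ratios
`Δ_m j/Δ_m i = (a_m j/a_m i)(d_m j/d_m i) → 0` for `i < j`. Let `δ > 0` be small, to be chosen; for large `m` `G_EIG` (with `ε := δ`)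
applies and gives `κ_m`, `l_m` with `E_m diag(Δ_m) κ_m = κ_m diag(l_m)`, `near κ_m 1 δ`. Put `k_m = p_m u U_m⁻¹ κ_m`. Then
`p_m diag(a_m) q_m⁻¹ = k_m diag(l_m) k_m⁻¹`, and `k_m` is within `ε` of `P u` for large `m` if `δ` is small enough
(`p_m u U_m⁻¹ → P u`, bounded, times `κ_m` with `|κ_m - 1| ≤ δ`). -/
def G_R4 : Prop :=
  ∀ (n : ℕ) (p q : ℕ → Mt n) (a : ℕ → Fin n → ℝ) (P Q u l : Mt n), Tendsto p atTop (𝓝 P) → Tendsto q atTop (𝓝 Q) →
    P.det ≠ 0 → Q.det ≠ 0 → Gap a → UppU u → LowT l → l.det ≠ 0 → P * u = Q * l →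
    ∀ ε > 0, ∀ᶠ m in atTop, ∃ (k : Mt n) (μ : Fin n → ℝ),
      RegF (p m * diagonal (a m) * (q m)⁻¹) k μ ∧ near k (P * u) ε

/-! ## Using the rank -/

/-- **PC**. `A_i(G)` is invariant under conjugation.

Proof. The centralizer of `y x y⁻¹` is the conjugate of the centralizer of `x`; conjugate `H`. -/
def G_PC : Prop :=
  ∀ (G : Type) [Group G] (i : ℕ) (x y : G), x ∈ PRA G i → y * x * y⁻¹ ∈ PRA G i

/-- **E**. Uniform non-degeneracy with finitely many pairs of elements of `Γ`.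

Proof. Let `𝒦` be the set of families `Y = (Y j)_{j : Fin n}`, `Y j : Matrix (JS (j+1) n) (JS (j+1) n) ℝ` with `n1 (Y j) = 1` for
all `j`; it is compact. For `h h' ∈ Γ` and `Y ∈ 𝒦` put
`F_{h,h'}(Y) j = (cp (j+1) A * cp (j+1) h * Y j * cp (j+1) h' * cp (j+1) B) (bd j j) (bd j j)`.
Claim: for each `Y ∈ 𝒦` there are `h, h' ∈ Γ` with all `F_{h,h'}(Y) j ≠ 0`. For each `j` pick `I_j` such that the row
`Y j I_j ·` is not zero. The vector `β_j = cp (j+1) B · (bd j j)` (a column of an invertible matrix, `cp_det_ne`) is not zero. By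
`G_N` there is `h' ∈ Γ` with `Y j I_j · ⬝ᵥ (cp (j+1) h' *ᵥ β_j) ≠ 0` for all `j`. So `z_j = Y j *ᵥ (cp h' *ᵥ β_j) ≠ 0`. The row
`α_j = cp (j+1) A (bd j j) ·` is not zero either, so by `G_N` again there is `h ∈ Γ` with `α_j ⬝ᵥ (cp h *ᵥ z_j) ≠ 0` for all `j`,
which is the claim. By compactness of `𝒦` there is a finite `E ⊆ Γ × Γ` such that the open sets
`{Y | ∀ j, F_{h,h'}(Y) j ≠ 0}`, `(h,h') ∈ E`, cover `𝒦`. The continuous function `max_{(h,h') ∈ E} min_j |F_{h,h'}(Y) j|` is positive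
on `𝒦`, hence at least some `c > 0` (if one prefers: around each `Y ∈ 𝒦` there is an open set and a `c_Y > 0` with
`|F_{h,h'} j| > c_Y` on it for all `j`, take finitely many and the minimum of the `c_Y`). For `x : SLn n` apply this to
`Y j = cp (j+1) x / n1 (cp (j+1) x)` (`n1 > 0` since `cp (j+1) x` is invertible and `JS (j+1) n` is nonempty) and use
`ld j (A h x h' B) = F(…)`, by `cp_mul`. -/
def G_E : Prop :=
  ∀ (n : ℕ), 1 ≤ n → ∀ Γ : Subgroup (SLn n), ZD Γ → ∀ (A B : Mt n), A.det ≠ 0 → B.det ≠ 0 →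
    ∃ (E : Finset (SLn n × SLn n)) (c : ℝ), 0 < c ∧ (∀ e ∈ E, e.1 ∈ Γ ∧ e.2 ∈ Γ) ∧
      ∀ x : SLn n, ∃ e ∈ E, ∀ j : Fin n, c * n1 (cp ((j : ℕ) + 1) x.1) ≤ |ld j (A * e.1.1 * x.1 * e.2.1 * B)|

/-- **D**. The key step: from two regular sequences in `Γ` and the failure of a covering by translates of `A_s` one gets elements
outside `A_s` which are regular, with frame close to `P u = Q' l`.

Proof. Take `E`, `c` from `G_E` with `A = Q⁻¹`, `B = P'`. For every `m` let `F_m` be the finite set of the elements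
`(h' * g' m * g m * h)⁻¹ ∈ Γ`, `(h, h') ∈ E`. Since `Cov Γ s` fails there is `x_m ∈ Γ` with `f⁻¹ x_m ∉ A_s` for all `f ∈ F_m`,
i.e. `h' g'_m g_m h x_m ∉ A_s`; by `G_PC` (conjugating by `g_m h`... the element `M = g_m h x_m h' g'_m` is conjugate to
`h' g'_m g_m h x_m`: indeed `(h' g'_m)(g_m h x_m) = (h' g'_m) [ (g_m h x_m)(h' g'_m) ] (h' g'_m)⁻¹`), so
`M_m(h,h') := g_m h x_m h' g'_m ∉ A_s` for all `(h,h') ∈ E`. By `G_E` choose for each `m` a pair `(h,h') ∈ E` with
`c * n1 (cp (j+1) x_m) ≤ |ld j (Q⁻¹ h x_m h' P')|` for all `j`. Passing to a subsequence (`E` is finite, `{n1 = 1}` is compact) we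
may assume that `(h,h')` does not depend on `m` and that `cp (j+1) x_m / n1 (cp (j+1) x_m) → Y_j` for all `j`. (All hypotheses are
inherited by subsequences.) Let `Z_m = q_m⁻¹ h x_m h' p'_m`, `t m j = 1 / n1 (cp (j+1) x_m)`. Then
`t m j • cp (j+1) Z_m → X_j := cp(Q⁻¹) cp(h) Y_j cp(h') cp(P')`, and the same is the limit of `t m j • cp (j+1) (Q⁻¹ h x_m h' P')`,
so the leading entry of `X_j` is at least `c` in absolute value. By `G_LDUS`, eventually `Z_m = L_m diag(d_m) U_m` with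
`L_m → L0`, `U_m → U0`, `|d_m j| ≤ C |d_m i|` for `i < j`. Hence, eventually,
`M_m = g_m h x_m h' g'_m = p_m diag(a_m) Z_m diag(b_m) q'_m⁻¹ = p̃_m diag(a_m d_m b_m) q̃_m⁻¹` with
`p̃_m = p_m (diag(a_m) L_m diag(a_m)⁻¹) → P` and `q̃_m = q'_m (diag(b_m)⁻¹ U_m diag(b_m))⁻¹ → Q'` by `G_CJ`. The sequence
`a_m d_m b_m` satisfies `Gap`: the ratio is `(a_j/a_i)(d_j/d_i)(b_j/b_i)` with `|d_j/d_i| ≤ C`. By `G_R4` (for `P u = Q' l`) for
large `m` `M_m` is `RegF` with a frame within `ε` of `P u`. -/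
def G_D : Prop :=
  ∀ (n : ℕ), 1 ≤ n → ∀ Γ : Subgroup (SLn n), ZD Γ → ∀ s : ℕ, ¬ Cov Γ s →
    ∀ (g g' : ℕ → SLn n) (p q p' q' : ℕ → Mt n) (a b : ℕ → Fin n → ℝ) (P Q P' Q' u l : Mt n),
    (∀ m, g m ∈ Γ) → (∀ m, g' m ∈ Γ) →
    (∀ᶠ m in atTop, (g m).1 = p m * diagonal (a m) * (q m)⁻¹) →
    (∀ᶠ m in atTop, (g' m).1 = p' m * diagonal (b m) * (q' m)⁻¹) →
    Tendsto p atTop (𝓝 P) → Tendsto q atTop (𝓝 Q) → Tendsto p' atTop (𝓝 P') → Tendsto q' atTop (𝓝 Q') →
    P.det ≠ 0 → Q.det ≠ 0 → P'.det ≠ 0 → Q'.det ≠ 0 → Gap a → Gap b →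
    UppU u → LowT l → l.det ≠ 0 → P * u = Q' * l →
    ∀ ε > 0, ∃ γ : Γ, γ ∉ PRA Γ s ∧ ∃ (k : Mt n) (μ : Fin n → ℝ), RegF γ.1.1 k μ ∧ near k (P * u) ε

/-! ## Compact flats -/

/-- **LFD**. A discrete subgroup of `SL_n(ℝ)` is locally finite.

Proof. A discrete subgroup of a Hausdorff topological group is closed. `{g : SLn n | ∀ i j, |g i j| ≤ R}` is compact (it embeds
as a closed and bounded subset of `Mt n`). Its intersection with `Γ` is compact and discrete, hence finite. -/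
def G_LFD : Prop :=
  ∀ (n : ℕ) (Γ : Subgroup (SLn n)), DiscreteTopology Γ → LF Γ

/-- **T**. A regular element of `Γ` which is not in `A_{n-2}` gives a compact flat.

Proof. Let `C` be the centralizer of `γ` in `Γ`. Each `δ ∈ C` commutes with `γ = k diag(μ) k⁻¹`, so `k⁻¹ δ k` commutes with
`diag(μ)`; the `μ i` are distinct (their absolute values are), so `k⁻¹ δ k = diag(ν(δ))`, with nonzero entries, `∏ ν_i = 1`.
`φ : C → 𝔞 = {y | ∑ y i = 0} ⊆ (Fin n → ℝ)`, `φ(δ) i = log |ν_i(δ)|` is a homomorphism. For each `R` only finitely many `δ ∈ C`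
have `|φ(δ) i| ≤ R` for all `i`, because then the entries of `δ = k diag(ν) k⁻¹` are bounded in terms of `R` and `k` and `Γ` is
locally finite. In particular `ker φ` is finite and `Λ = φ(C)` is a discrete subgroup. Let `W = span_ℝ Λ ⊆ 𝔞`.
Case 1: `W = 𝔞`. Choose `δ_1, …, δ_s ∈ C` such that the `φ(δ_i)` form a basis of `𝔞`, and `R = ∑ ‖φ(δ_i)‖`. Given `y ∈ 𝔞`, write
`y = ∑ c_i φ(δ_i)` and let `γ' = ∏ δ_i^{⌊c_i⌋}`. Then `|φ(γ') i - y i| ≤ R`, so `Flat Γ k`.
Case 2: `W ≠ 𝔞`, so `r = dim W ≤ n - 2` (`dim 𝔞 = n - 1`). `Λ` is a discrete subgroup spanning `W`, so it is a free abelian group of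
rank `r` (`ZLattice` in Mathlib: `ZLattice.module_free`, `ZLattice.rank`, applied to `Λ` as a `ℤ`-lattice in its span). Choose
`δ_1, …, δ_r ∈ C` such that the `φ(δ_i)` form a `ℤ`-basis of `Λ`. Any two elements of `C` commute (diagonal matrices). So
`Multiplicative (Fin r → ℤ) → C`, `c ↦ ∏ δ_i^{c_i}` is a homomorphism, injective because its composition with `φ` is; let `H` be
its image. Each `δ ∈ C` is `h κ` with `h ∈ H`, `κ ∈ ker φ` finite, so `H` has finite index in `C`. Hence `γ ∈ A_{n-2}`, a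
contradiction. -/
def G_T : Prop :=
  ∀ (n : ℕ), 2 ≤ n → ∀ (Γ : Subgroup (SLn n)), LF Γ → ∀ (γ : Γ), γ ∉ PRA Γ (n - 2) →
    ∀ (k : Mt n) (μ : Fin n → ℝ), RegF γ.1.1 k μ → Flat Γ k

/-- **CHB**. A compact flat contains an element of `Γ` in the interior of the Weyl chamber.

Proof. Let `R` be the constant of `Flat Γ k`; `R ≥ 0` (apply it to `y = 0`). Apply it to
`y i = (2R + 1) ((n - 1)/2 - i)`, `∑ y i = 0`: there is `γ = k diag(μ) k⁻¹ ∈ Γ` with `|log |μ i| - y i| ≤ R`. Since `det γ = 1`, all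
`μ i ≠ 0`. For `i < j`: `log |μ i| - log |μ j| ≥ y i - y j - 2R ≥ 2R + 1 - 2R > 0`. -/
def G_CHB : Prop :=
  ∀ (n : ℕ), 1 ≤ n → ∀ (Γ : Subgroup (SLn n)) (k : Mt n), k.det ≠ 0 → Flat Γ k →
    ∃ γ ∈ Γ, ∃ μ : Fin n → ℝ, RegF γ.1 k μ ∧ ∀ i, μ i ≠ 0

/-- **K0**. There is a compact flat.

Proof. Take `γ m`, `t`, `a r`, `b r` from `G_SEQ`. By `G_N` there are `h₁, h₂ ∈ Γ` such that for `r = j + 1`, `j : Fin n`, the
`bd j j`-entry of `cp r h₁ *ᵥ a r` and of `b r ᵥ* cp r h₂` is nonzero (`α = Pi.single (bd j j) 1`, `β = a r`, and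
`α = b r`, `β = Pi.single (bd j j) 1`). Let `z m = h₁ * γ m * h₂ ∈ Γ`. `t m r • cp r (z m) → X_j = vecMulVec (cp h₁ *ᵥ a) (b ᵥ* cp h₂)`,
with nonzero leading entry, and the `2 × 2` minors of `X_j` vanish. By `G_LDUS`, eventually `z m = L m * diag(d m) * U m`,
`L m → L0`, `U m → U0`, `Gap d`. By `G_N` choose `η ∈ Γ` such that all leading minors of `U0 η L0` are nonzero
(`ld j (U0 η L0) = α ⬝ᵥ (cp (j+1) η *ᵥ β)` with `α` = row `bd j j` of `cp U0` and `β` = column `bd j j` of `cp L0`, nonzero as these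
matrices are invertible). By `G_LDU1`, `U0 η L0 = L' diag(d') U'`. Put `g m = z m`, `p m = L m`, `q m = (U m)⁻¹`, `a = d`, and
`g' m = z m * η`, `p' m = L m`, `b = d`, `q' m = (U m η)⁻¹`, `P = P' = L0`, `Q = U0⁻¹`, `Q' = η⁻¹ U0⁻¹`, `u = U'⁻¹` (again `UppU`),
`l = L' diag(d')`. `P u = Q' l` because `U0 η L0 U'⁻¹ = L' diag(d')`. By `G_D` with `s = n - 2` there is `γ ∈ Γ`, not in `A_{n-2}`,
with `RegF γ k μ`. By `G_T`, `Flat Γ k`. -/
def G_K0 : Prop :=
  ∀ (n : ℕ), 2 ≤ n → ∀ (Γ : Subgroup (SLn n)), LF Γ → ZD Γ → ¬ Cov Γ (n - 2) → ∃ k : Mt n, k.det ≠ 0 ∧ Flat Γ k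

/-- **S3P**. If `k` and `k'` are frames of compact flats and `k u = k' l` then there are compact flats close to `k u`.

Proof. By `G_CHB` there are `γ = k diag(μ) k⁻¹`, `γ' = k' diag(μ') k'⁻¹` in `Γ` with strictly decreasing nonzero `|μ i|`, `|μ' i|`.
Apply `G_D` (`s = n - 2`) to `g m = γ^m`, `g' m = γ'^m`, `p = q = k`, `p' = q' = k'` (constant), `a m i = μ i ^ m`,
`b m i = μ' i ^ m`; `Gap a` as `|μ j/μ i| < 1` for `i < j`. Then use `G_T`. -/
def G_S3P : Prop :=
  ∀ (n : ℕ), 2 ≤ n → ∀ (Γ : Subgroup (SLn n)), LF Γ → ZD Γ → ¬ Cov Γ (n - 2) →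
    ∀ k k' u l : Mt n, k.det ≠ 0 → k'.det ≠ 0 → Flat Γ k → Flat Γ k' → UppU u → LowT l → l.det ≠ 0 → k * u = k' * l →
    ∀ ε > 0, ∃ k'' : Mt n, k''.det ≠ 0 ∧ Flat Γ k'' ∧ near k'' (k * u) ε

/-- **CL**. The set `clS Γ` is admissible.

Proof. `det`: by definition. `cl`: closures are closed. Let `S₀ = {k | det k ≠ 0 ∧ Flat Γ k}`. `S₀` is invariant under
column permutations (`(k.submatrix id σ) diag(μ ∘ σ) (k.submatrix id σ)⁻¹ = k diag(μ) k⁻¹`; for a given `y` apply `Flat Γ k` to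
`y ∘ σ⁻¹`), under right multiplication by invertible diagonal matrices (they commute with `diag(μ)`) and under left multiplication
by `γ' ∈ Γ` (`(γ'k) diag(μ) (γ'k)⁻¹ = γ' (k diag(μ) k⁻¹) γ'⁻¹ ∈ Γ`); all these maps are homeomorphisms of `Mt n` (or continuous) and
preserve `det ≠ 0`, so `perm`, `diag`, `inv` hold for `clS Γ`. `s3`: let `k, k' ∈ clS Γ`, `k u = k' l`. Choose sequences `k_m → k`,
`k'_m → k'` in `S₀`. `Y_m = k'_m⁻¹ k_m → k'⁻¹ k = l u⁻¹`. Apply `G_LDUS` with `t = 1`, `X j = cp (j+1) (l u⁻¹)`; the leading entry of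
`X j` is `l 0 0 ⋯ l j j ≠ 0` (the leading `(j+1)`-block of `l u⁻¹` is the product of the leading blocks). So eventually
`Y_m = L_m diag(d_m) U_m`, `L_m → L0`, `U_m → U0`. Then `diag(d_m) = L_m⁻¹ Y_m U_m⁻¹ → L0⁻¹ l u⁻¹ U0⁻¹ =: D0`, which is diagonal (limits
of diagonal matrices), invertible, and `l u⁻¹ = (L0 D0) U0`. By `G_UNI`, `U0 = u⁻¹`. So `k_m U_m⁻¹ = k'_m (L_m diag(d_m))`, with
`U_m⁻¹` `UppU` and `L_m diag(d_m)` lower triangular and invertible. By `G_S3P` there is `k''_m ∈ S₀` with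
`near k''_m (k_m U_m⁻¹) (1/(m+1))`. Since `k_m U_m⁻¹ → k u`, also `k''_m → k u`, so `k u` is in the closure; it is invertible. -/
def G_CL : Prop :=
  ∀ (n : ℕ), 2 ≤ n → ∀ (Γ : Subgroup (SLn n)), LF Γ → ZD Γ → ¬ Cov Γ (n - 2) → Adm Γ (clS Γ)

/-! ## Admissible sets are everything (algebra, `n ≥ 3`) -/

/-- **STR**. Superdiagonal entries can be isolated.

Proof. Let `w = Equiv.swap i j`, `c = u i j`, `j = i + 1`. `kw := k.submatrix id w ∈ S` and `(k*u).submatrix id w ∈ S` (`perm`). Let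
`u' = u.submatrix w w`; then `(k * u).submatrix id w = kw * u'`. The matrix `u'` has ones on the diagonal, its entry `(j,i)` is
`u i j = c`, its entry `(i,j)` is `u j i = 0`, and all its other entries below the diagonal vanish (for `b < a`, `(a,b) ≠ (j,i)`, one
has `w b < w a`). Put `l = Matrix.transvection j i c` (lower triangular, determinant `1`) and
`u'' = Matrix.transvection j i (-c) * u'`: this is `UppU` (row `j` of `u'` minus `c` times row `i` of `u'`: in column `i` we get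
`c - c * 1 = 0`, in column `j` we get `1 - c * 0 = 1`, in columns `b < i` both vanish). So `kw * u' = kw * l * u''`, i.e.
`((k*u).submatrix id w) * u''⁻¹ = kw * l` with `u''⁻¹` `UppU`. By `s3` (with `k := (k*u).submatrix id w`, `k' := kw`) the matrix
`kw * l` is in `S`. Apply `perm` with `w` again: `(kw * l).submatrix id w = k * (transvection i j c) ∈ S`. -/
def G_STR : Prop :=
  ∀ (n : ℕ) (Γ : Subgroup (SLn n)) (S : Set (Mt n)), Adm Γ S → ∀ k ∈ S, ∀ u : Mt n, UppU u → k * u ∈ S →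
    ∀ i j : Fin n, (j : ℕ) = i + 1 → k * Matrix.transvection i j (u i j) ∈ S

/-- **A1**. Some nontrivial superdiagonal transvection.

Proof. By `G_N` choose `γ ∈ Γ` such that with `Y = k⁻¹ γ k` all leading minors `ld a Y ≠ 0` (`a : Fin n`) and moreover
`cp (i+1) Y (bd i i) (bd i j) ≠ 0` (each of these is `α ⬝ᵥ (cp r γ *ᵥ β)` with `α` a row of `cp r k⁻¹` and `β` a column of `cp r k`,
nonzero since these matrices are invertible). By `G_LDU1`, `Y = L diag(d) U` with `U i j ≠ 0` (`U i j * ld i Y = cp (i+1) Y (bd i i) (bd i j)`).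
`k1 := γ k ∈ S` (`inv`). `k1 * U⁻¹ = k * (L diag(d))`, so by `s3` (`k := k1`, `k' := k`, `u := U⁻¹`, `l := L diag(d)`)
`k1 * U⁻¹ ∈ S`. By `G_STR` (for `k1` and `u = U⁻¹`): `k1 * transvection i j c ∈ S` with `c = U⁻¹ i j = - U i j ≠ 0` (as `j = i + 1`:
`0 = (U U⁻¹) i j = U⁻¹ i j + U i j`). Multiply by `γ⁻¹ ∈ Γ` from the left (`inv`): `k * transvection i j c ∈ S`. -/
def G_A1 : Prop :=
  ∀ (n : ℕ), 1 ≤ n → ∀ (Γ : Subgroup (SLn n)) (S : Set (Mt n)), ZD Γ → Adm Γ S → ∀ k ∈ S,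
    ∀ i j : Fin n, (j : ℕ) = i + 1 → ∃ c : ℝ, c ≠ 0 ∧ k * Matrix.transvection i j c ∈ S

/-- **F3**. Closed sets of points and of lines of the real projective plane, closed under joining and intersecting, and containing a
projective frame, are everything. (`P` is a set of points, `Λ` a set of lines, given by nonzero vectors.)

Proof. Write `⨯₃` for the cross product. By `join` the lines `e0 ⨯₃ e1 ∼ e2` etc. are in `Λ` (up to scaling).
Let `T = {t : ℝ | ![t, 1, 0] ∈ P}`. Facts.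
(0) `0 ∈ T` (`e1 ∈ P`). `1 ∈ T`: the line through `e2` and `![1,1,1]` is `![0,0,1] ⨯₃ ![1,1,1] = ![-1,1,0]`, the line `e0e1` is
`![0,0,1]`, and `![-1,1,0] ⨯₃ ![0,0,1] = ![1,1,0]`. Similarly `![1,0,1], ![0,1,1] ∈ P` (intersect the lines `e1 ![1,1,1]`, `e0 ![1,1,1]`
with the coordinate lines).
(1) Transfer: for `t ∈ T` the point `![t,0,1] ∈ P`: intersect the line through `![t,1,0]` and `![0,-1,1]` with the line `e0 e2`:
`![t,1,0] + ![0,-1,1] = ![t,0,1]`. Here `![0,-1,1] ∈ P`: it is the intersection of the line `e1 e2` (`x = 0`) with the line through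
`![1,1,0]` and `![1,0,1]` (`![1,0,1] - ![1,1,0] = ![0,-1,1]`). Conversely, `![t,0,1] ∈ P` implies `t ∈ T` (`![t,0,1] - ![0,-1,1]`).
(2) Differences: `s, t ∈ T ⇒ s - t ∈ T`. The points `![s,1,0]` and `![t,0,1]` are in `P`, and
`![s,1,0] - ![t,0,1] = ![s-t, 1, -1]` lies on the line through them, and also on the line through `e0` and `![0,1,-1]`; if these two
lines are different, `![s-t,1,-1]` is their intersection, in `P`. (They are different: `e0` is not on the line through `![s,1,0]`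
and `![t,0,1]`.) Then intersect the line through `e2` and `![s-t,1,-1]` with `e0e1`: `![s-t,1,0] ∈ P`.
(3) Products: `s, t ∈ T ⇒ s * t ∈ T`. The point `![0,t,1]`: is in `P` (transfer between coordinate lines: first
`![t,0,1] ∈ P`; the line through `![t,0,1]` and `![-1,1,0]`  (`![-1,1,0] ∈ P` by (2), as `-1 ∈ T`) contains
`![t,0,1] + t • ![-1,1,0] = ![0,t,1]`, the intersection with the line `x = 0`; for `t = 0` the point is `e2`). If `s = 0` there is
nothing to prove. The line through `e2` and `![s,1,0]` consists of the points with `x = s y`; the line through `e0` and `![0,t,1]`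
of the points with `y = t z`; their intersection is `![s t, t, 1] ∈ P`. Intersect the line through `e1` and `![st,t,1]` with the
line `y = 0`: `![st,0,1] ∈ P`, so `st ∈ T` by (1). (The lines used are different, check the cross products.)
(4) Inverses: `t ∈ T`, `t ≠ 0 ⇒ t⁻¹ ∈ T`. `![t,1,0] ∈ P`, scaled: `![1,t⁻¹,0] ∈ P`. Transfer: `![0,1,1], …`. One way: the line through
`![1,t⁻¹,0]` and `![-1,0,1]` contains the sum `![0,t⁻¹,1]`, the intersection with `x = 0` (`![-1,0,1] ∈ P` by (1)). The line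
through `![0,t⁻¹,1]` and `![1,-1,0]` contains `![0,t⁻¹,1] + t⁻¹ • ![1,-1,0] = ![t⁻¹,0,1]`, so `t⁻¹ ∈ T` by (1).
(5) `T` is closed: `P ∪ {0}` is closed and `![t,1,0] ≠ 0`. So `T` is a closed subfield of `ℝ`, it contains `ℚ`, hence `T = ℝ`.
(6) Now every point: for arbitrary `x, y` the points `![x,0,1]` and `![0,y,1]` are in `P` (as in (1), (3)); `![x,y,1]` is the
intersection of the line through `e1`, `![x,0,1]` and the line through `e0`, `![0,y,1]`. Finally `![x,1,0] ∈ P` for all `x`, and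
`e0 ∈ P`; by scaling, all nonzero vectors are in `P`. -/
def G_F3 : Prop :=
  ∀ (P Λ : Set (Fin 3 → ℝ)), (0 : Fin 3 → ℝ) ∉ P → (0 : Fin 3 → ℝ) ∉ Λ →
    (∀ (x : ℕ → Fin 3 → ℝ) (y : Fin 3 → ℝ), (∀ m, x m ∈ P) → Tendsto x atTop (𝓝 y) → y ≠ 0 → y ∈ P) →
    (∀ v ∈ P, ∀ c : ℝ, c ≠ 0 → c • v ∈ P) → (∀ v ∈ Λ, ∀ c : ℝ, c ≠ 0 → c • v ∈ Λ) →
    (∀ v ∈ P, ∀ w ∈ P, crossProduct v w ≠ 0 → crossProduct v w ∈ Λ) →
    (∀ v ∈ Λ, ∀ w ∈ Λ, crossProduct v w ≠ 0 → crossProduct v w ∈ P) →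
    ![1, 0, 0] ∈ P → ![0, 1, 0] ∈ P → ![0, 0, 1] ∈ P → ![1, 1, 1] ∈ P → ∀ v : Fin 3 → ℝ, v ≠ 0 → v ∈ P

/-- **P3J**. Joins and intersections for an admissible set of `3 × 3` frames.

For a matrix `x` write `x_j = fun i => x i j` for its columns. (a) If `v, v'` are columns of elements `x, y` of `Σ` and are linearly
independent then some `z ∈ Σ` has columns `z_0 = v` and `z_2 = v'`. (b) If `x, y ∈ Σ` and the planes `⟨x_0,x_1⟩`, `⟨y_1,y_2⟩` are
different then some `z ∈ Σ` has `z_1` a nonzero vector of the intersection. In the formulation below, by `perm`, we can take the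
vectors to be at any position.

Proof. `s3` says: if `x, y ∈ Σ` and `x u = y l` then `z = x u ∈ Σ`. By `G_LDU1` such `u`, `l` exist as soon as the leading minors
of `y⁻¹ x` are nonzero (`y⁻¹ x = L D U`, `u = U⁻¹`, `l = L D`). Leading minors of `y⁻¹ x`: the first is nonzero iff
`x_0 ∉ ⟨y_1, y_2⟩`, i.e. `det (x_0, y_1, y_2) ≠ 0` (Cramer: it equals `det (x_0,y_1,y_2) / det y`); the second is
`det (x_0, x_1, y_2) / det y`; the third is `det x / det y`. And `z = x u = y l` has `z_0 = x_0`, `z_1 ∈ ⟨x_0,x_1⟩ ∩ ⟨y_1,y_2⟩`,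
`z_2 = l_22 y_2`.
(a) Arrange by `perm` that `x_0 = v`, `y_2 = v'`. We may still interchange `x_1, x_2` and `y_0, y_1`. `v` and `v'` are independent,
so `v` cannot be in both planes `⟨y_0,v'⟩`, `⟨y_1,v'⟩` (their intersection is `ℝ v'` as `y` is invertible); arrange
`v ∉ ⟨y_1,y_2⟩`. Similarly arrange `v' ∉ ⟨v, x_1⟩`. Then `z = x u ∈ Σ` has `z_0 = v`, `z_2 = l_22 v'`; rescale the last column by
`diag`.
(b) Let `φ = x_0 ⨯₃ x_1`, `φ' = y_1 ⨯₃ y_2`, `φ ⨯₃ φ' ≠ 0`. Interchange `x_0, x_1` if necessary (this changes `φ` by a sign) to have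
`φ' ⬝ᵥ x_0 ≠ 0` (if `φ'` vanishes on `x_0` and `x_1` it is a multiple of `φ`); similarly `y_1, y_2` to have `φ ⬝ᵥ y_2 ≠ 0`. Then the
leading minors are nonzero and `z_1` is a nonzero vector in both planes, so a nonzero multiple of `φ ⨯₃ φ'`; rescale by `diag`. -/
def G_P3J : Prop :=
  ∀ (Sg : Set (Mt 3)), Adm (⊥ : Subgroup (SLn 3)) Sg →
    (∀ x ∈ Sg, ∀ y ∈ Sg, ∀ i j : Fin 3, crossProduct (fun a => x a i) (fun a => y a j) ≠ 0 →
      ∃ z ∈ Sg, (fun a => z a 0) = (fun a => x a i) ∧ (fun a => z a 2) = (fun a => y a j)) ∧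
    (∀ x ∈ Sg, ∀ y ∈ Sg,
      crossProduct (crossProduct (fun a => x a 0) (fun a => x a 1)) (crossProduct (fun a => y a 1) (fun a => y a 2)) ≠ 0 →
      ∃ z ∈ Sg, (fun a => z a 1) =
        crossProduct (crossProduct (fun a => x a 0) (fun a => x a 1)) (crossProduct (fun a => y a 1) (fun a => y a 2)))

/-- **P3**. An admissible set of `3 × 3` frames containing `1`, some `1 + a E_01` and some `1 + b E_12` (`a, b ≠ 0`) contains all
`1 + t E_01`.

Proof. Let `P` be the set of all vectors which are a column of some element of `Σ` (by `perm`, at any position we like), and `Λ` the set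
of all nonzero multiples of vectors `x_0 ⨯₃ x_1`, `x ∈ Σ` (by `perm`: of `x_i ⨯₃ x_j`, `i ≠ j`). `P` is invariant under nonzero scalars
(`diag`). By `G_P3J` (a): `v, v' ∈ P`, `v ⨯₃ v' ≠ 0` implies `v ⨯₃ v' ∈ Λ` (take `z` with columns `z_0 = v`, `z_2 = v'`), and by (b)
`φ, φ' ∈ Λ`, `φ ⨯₃ φ' ≠ 0` implies `φ ⨯₃ φ' ∈ P`. `e0, e1, e2 ∈ P` (columns of `1`), `![a,1,0] ∈ P` (column `1` of `1 + a E_01`),
`![0,b,1] ∈ P` (column `2` of `1 + b E_12`). The intersection of the line (plane) through `![a,1,0]`, `e2` and the one through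
`![0,b,1]`, `e0` is spanned by `d := ![a b, b, 1]`, so `d ∈ P`.
Closedness is a problem only in the following point: `P` need not be closed a priori. Let `P' = closure of P, minus 0` and let
`Λ'` be the closure of `Λ` minus `0`. These are again invariant under scalars and under cross products (if `v_m → v`, `w_m → w`,
`v ⨯₃ w ≠ 0` then `v_m ⨯₃ w_m ≠ 0` eventually). Rescale coordinates by `D = diagonal d`: the sets `D⁻¹ P'` and `D Λ'` are closed under
cross products (`(D⁻¹ v) ⨯₃ (D⁻¹ w) = (det D)⁻¹ • D (v ⨯₃ w)`, similarly for the other one), and `D⁻¹ P'` contains the `e_i` (up to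
scaling) and `![1,1,1]`. By `G_F3` `P' = ` all nonzero vectors. So `P` is dense in `ℝ³`. Let `t : ℝ`. Choose `v_m ∈ P`,
`v_m → ![t,1,0]`. By (a) for large `m` there is `y_m ∈ Σ` with columns `v_m` and `e2`; by `perm` let `(y_m)_1 = v_m`,
`(y_m)_2 = e2`. Apply `s3` to `x = 1` and `y = y_m`: the leading minors of `y_m⁻¹` are nonzero multiples of
`det (e0, v_m, e2) → 1`, `det (e0, e1, e2) = 1`, and `1`. So there are `u_m`, `l_m` with `z_m = u_m = y_m l_m ∈ Σ`, `UppU u_m`: the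
column `(z_m)_1 = e1 + (u_m)_{01} e0` lies in the plane spanned by `v_m`, `e2`, and `(z_m)_2 = u_m · 2` is a multiple of `e2`, so
`(z_m)_2 = e2`. Thus `z_m = 1 + s_m E_01` with `![s_m, 1, 0] ∈ ⟨v_m, e2⟩`, so `s_m = v_m 0 / v_m 1 → t`. By `cl`,
`1 + t E_01 ∈ Σ`. -/
def G_P3 : Prop :=
  ∀ (Sg : Set (Mt 3)), Adm (⊥ : Subgroup (SLn 3)) Sg → (1 : Mt 3) ∈ Sg →
    (∃ a : ℝ, a ≠ 0 ∧ Matrix.transvection (0 : Fin 3) 1 a ∈ Sg) →
    (∃ b : ℝ, b ≠ 0 ∧ Matrix.transvection (1 : Fin 3) 2 b ∈ Sg) →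
    ∀ t : ℝ, Matrix.transvection (0 : Fin 3) 1 t ∈ Sg

/-- **EMB3**. Restriction to the first three columns.

Proof. For `x : Mt 3` let `x ⊕ 1 : Mt n` be the block matrix with `x` in the upper left corner and the identity in the lower right
corner, and `Sg = {x | k * (x ⊕ 1) ∈ S}`. `x ↦ x ⊕ 1` is multiplicative, continuous, maps `1` to `1`, `det (x ⊕ 1) = det x`, maps
`UppU` to `UppU`, `LowT` to `LowT`, diagonal to diagonal matrices, and `(x.submatrix id σ) ⊕ 1 = (x ⊕ 1).submatrix id σ'` where `σ'`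
extends `σ` by the identity. So `Sg` is admissible (`inv` for the trivial group is trivial). `(transvection i j c) ⊕ 1` is the
transvection with the same indices. -/
def G_EMB3 : Prop :=
  ∀ (n : ℕ) (hn : 3 ≤ n) (Γ : Subgroup (SLn n)) (S : Set (Mt n)), Adm Γ S → ∀ k ∈ S,
    ∃ Sg : Set (Mt 3), Adm (⊥ : Subgroup (SLn 3)) Sg ∧ (1 : Mt 3) ∈ Sg ∧
      ∀ (i j : Fin 3) (c : ℝ), i ≠ j →
        (Matrix.transvection i j c ∈ Sg ↔ k * Matrix.transvection (Fin.castLE hn i) (Fin.castLE hn j) c ∈ S)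

/-- **AA**. A nonempty admissible set is everything, if `n ≥ 3`.

Proof. Let `k ∈ S`. By `G_A1` for `(i,j) = (0,1)` and `(1,2)`, `G_EMB3` and `G_P3`: `k * transvection 0 1 t ∈ S` for all `t`. This holds
for every `k ∈ S`. Let `i ≠ j` and let `σ` be a permutation with `σ 0 = i`, `σ 1 = j`. Then
`k * transvection i j t = ((k.submatrix id σ) * transvection 0 1 t).submatrix id σ⁻¹ ∈ S` by `perm`. So
`T = {g | ∀ k ∈ S, k * g ∈ S}` contains all transvections, and all invertible diagonal matrices (`diag`), and is closed under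
products; by `Matrix.diagonal_transvection_induction_of_det_ne_zero` `T` contains all invertible matrices. As `S` contains some
invertible `k`, for invertible `g` we get `g = k (k⁻¹ g) ∈ S`. -/
def G_AA : Prop :=
  ∀ (n : ℕ), 3 ≤ n → ∀ (Γ : Subgroup (SLn n)) (S : Set (Mt n)), ZD Γ → Adm Γ S → S.Nonempty → ∀ g : Mt n, g.det ≠ 0 → g ∈ S

/-! ## Consequences of density -/

/-- **GEN**. Genericity: `k` close to `h` with `k⁻¹ g` having nonzero leading minors.

Proof. For `s : ℝ` let `Y s = (1 - s) • (h⁻¹ g) + s • 1`. Each `ld j (Y s)` is a polynomial in `s`, with value `1` at `s = 1`, so it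
has finitely many zeros; so there are arbitrarily small `s > 0` with `ld j (Y s) ≠ 0` for all `j`, and `det (Y s) ≠ 0` (also a
polynomial with value `1` at `s = 1`). Let `k = g (Y s)⁻¹`; `k⁻¹ g = Y s` and `k → g (h⁻¹ g)⁻¹ = h` as `s → 0`. -/
def G_GEN : Prop :=
  ∀ (n : ℕ) (g h : Mt n), g.det ≠ 0 → h.det ≠ 0 → ∀ ε > 0, ∃ k : Mt n, k.det ≠ 0 ∧ near k h ε ∧ ∀ j, ld j (k⁻¹ * g) ≠ 0

/-- **NRM**. Density with frames of determinant one.

Proof. Let `k` be a frame of a compact flat close to `g`. `det k` is close to `1`. Let `k' = k * diagonal δ`, `δ 0 = (det k)⁻¹`,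
`δ j = 1` for `j ≠ 0`. Then `det k' = 1`, `Flat Γ k'` (`k' diag(μ) k'⁻¹ = k diag(μ) k⁻¹`) and `k'` is close to `g`. (By continuity of
`k ↦ k * diagonal δ` at `g`, where its value is `g`.) -/
def G_NRM : Prop :=
  ∀ (n : ℕ), 1 ≤ n → ∀ (Γ : Subgroup (SLn n)), Dens Γ → ∀ g : SLn n, ∀ ε > 0, ∃ k : SLn n, Flat Γ k.1 ∧ near k.1 g.1 ε

/-- **MIN**. Density of compact flats implies that every `Γ`-orbit on the full flag variety is dense.

Proof. By `G_GEN` there is `k₁` close to `h` with all `ld j (k₁⁻¹ g) ≠ 0`, an open condition on `k₁`; by `Dens` there is a frame `k` of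
a compact flat close to `k₁` with `ld j (k⁻¹ g) ≠ 0`; replacing `k` by `k * diagonal δ` as in `G_NRM` we may assume `det k = 1` (this
changes `k⁻¹ g` by a left multiplication by a diagonal matrix, which does not affect the nonvanishing of the leading minors), `k`
within `ε/2` of `h`. By `G_LDU1`, `k⁻¹ g = L D U`. By `G_CHB` there is `γ = k diag(μ) k⁻¹ ∈ Γ`, `|μ i|` strictly decreasing and
nonzero. Put `Λ = diag(μ)` and `b_m = U⁻¹ D⁻¹ Λ^{-m}`, upper triangular. Then
`γ^m g b_m = k Λ^m (k⁻¹ g) U⁻¹ D⁻¹ Λ^{-m} = k (Λ^m L Λ^{-m}) → k` by `G_CJ` (`Gap` holds for `a m i = μ i ^ m`). The determinant of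
the right side is `det k * 1 = 1`, so `det b_m = 1`. For large `m` we are within `ε` of `h`. -/
def G_MIN : Prop :=
  ∀ (n : ℕ), 1 ≤ n → ∀ (Γ : Subgroup (SLn n)), Dens Γ → ∀ g h : SLn n, ∀ ε > 0,
    ∃ γ ∈ Γ, ∃ b : SLn n, (∀ i j, j < i → b.1 i j = 0) ∧ near (γ.1 * g.1 * b.1) h.1 ε

/-- **MIX**. Density of compact flats implies that the group of diagonal matrices acts topologically transitively on `Γ \ SL_n(ℝ)`.

Proof. By `G_NRM` there is `k : SLn n` with `Flat Γ k` within `ε/2` of `g`. By `G_GEN` (with `g := k`) there is `k₁` close to `h` with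
all `ld j (k₁⁻¹ k) ≠ 0`, and by density (and normalization of the determinant as in `G_MIN`) a frame `k'` of a compact flat,
`det k' = 1`, within `ε/2` of `h` with `ld j (k'⁻¹ k) ≠ 0`. By `G_LDU1`, `k'⁻¹ k = L D U`. Put `z = k U⁻¹ = k' L D`. By `G_CHB` there are
`γ = k Λ k⁻¹`, `γ' = k' Λ' k'⁻¹` in `Γ`, `Λ = diag(μ)`, `Λ' = diag(μ')` with strictly decreasing nonzero absolute values. Then
`g'_m := γ^{-m} z Λ^m = k (Λ^{-m} U⁻¹ Λ^m) → k` (`G_CJ`), and `det g'_m = 1`. Moreover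
`(γ'^m γ^m) g'_m (Λ^{-m} D⁻¹ Λ'^{-m}) = γ'^m z D⁻¹ Λ'^{-m} = k' (Λ'^m L Λ'^{-m}) → k'`. Take `m` large, `γ := γ'^m γ^m`,
`d := ` the diagonal of `Λ^{-m} D⁻¹ Λ'^{-m}`; its determinant is `1` as all other matrices in the identity have determinant `1`. -/
def G_MIX : Prop :=
  ∀ (n : ℕ), 1 ≤ n → ∀ (Γ : Subgroup (SLn n)), Dens Γ → ∀ g h : SLn n, ∀ ε > 0,
    ∃ γ ∈ Γ, ∃ (g' : SLn n) (d : Fin n → ℝ), ∏ i, d i = 1 ∧ near g'.1 g.1 ε ∧ near (γ.1 * g'.1 * diagonal d) h.1 ε

end Pool.Agent.Helper71.PR
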