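import Pool.Agent.Helper71.PR.Basic
import Pool.Agent.Helper79.PR.IRR
import Pool.Agent.Helper2.PR.N1
import Pool.Agent.Helper13.PR.N
import Pool.Agent.Helper20.PR.DETC
import Pool.Agent.Helper69.PR.INV
import Pool.Agent.Helper93.PR.SG
import Pool.Agent.Helper77.PR.MR
import Pool.Agent.Helper40.PR.SEQ
import Pool.Agent.Helper5.PR.LDU1
import Pool.Agent.Helper51.PR.LDUS
import Pool.Agent.Helper56.PR.UNI
import Pool.Agent.Helper15.PR.CJ
import Pool.Agent.Helper33.PR.EIG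
import Pool.Agent.Helper31.PR.R4
import Pool.Agent.Helper89.PR.PC
import Pool.Agent.Helper87.PR.E
import Pool.Agent.Helper2.PR.D
import Pool.Agent.Helper37.PR.LFD
import Pool.Agent.Helper89.PR.T
import Pool.Agent.Helper67.PR.CHB
import Pool.Agent.Helper35.PR.K0
import Pool.Agent.Helper35.PR.S3P
import Pool.Agent.Helper55.PR.CL
import Pool.Agent.Helper3.PR.STR
import Pool.Agent.Helper46.PR.A1
import Pool.Agent.Helper71.PR.F3
import Pool.Agent.Helper32.PR.P3J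
import Pool.Agent.Helper32.PR.P3
import Pool.Agent.Helper42.PR.EMB3
import Pool.Agent.Helper4.PR.AA
import Pool.Agent.Helper38.PR.GEN
import Pool.Agent.Helper59.PR.NRM
import Pool.Agent.Helper86.PR.MIN
import Pool.Agent.Helper13.PR.MIX

/-!
# Project PR (MP_af9e5e_al): assembly
-/

set_option autoImplicit false

namespace Pool.Agent.Helper71.PR

open Matrix Filter Topology

theorem pN : G_N := Pool.Agent.Helper13.PR.n_lem Pool.Agent.Helper79.PR.irr Pool.Agent.Helper2.PR.n1_lem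

theorem pLDU1 : G_LDU1 := Pool.Agent.Helper5.PR.ldu1

theorem pLDUS : G_LDUS := Pool.Agent.Helper51.PR.ldus pLDU1

theorem pR4 : G_R4 := Pool.Agent.Helper31.PR.r4 pLDUS Pool.Agent.Helper15.PR.cj Pool.Agent.Helper33.PR.eig

theorem pSG : G_SG := Pool.Agent.Helper93.PR.sg (Pool.Agent.Helper69.PR.inv_lem Pool.Agent.Helper20.PR.detc)

theorem pSEQ : G_SEQ := Pool.Agent.Helper40.PR.seq_lem pN (Pool.Agent.Helper77.PR.mr pSG Pool.Agent.Helper2.PR.n1_lem)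

theorem pD : G_D := Pool.Agent.Helper2.PR.d_lem (Pool.Agent.Helper87.PR.e_lem pN) pLDUS Pool.Agent.Helper15.PR.cj pR4
  Pool.Agent.Helper89.PR.pc_lem

theorem pT : G_T := Pool.Agent.Helper89.PR.t_lem

theorem pCHB : G_CHB := Pool.Agent.Helper67.PR.chb

theorem pK0 : G_K0 := Pool.Agent.Helper35.PR.k0 pSEQ pN pLDUS pLDU1 pD pT

theorem pS3P : G_S3P := Pool.Agent.Helper35.PR.s3p pCHB pD pT

theorem pCL : G_CL := Pool.Agent.Helper55.PR.cl_lem pLDUS Pool.Agent.Helper56.PR.uni pS3P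

theorem pP3 : G_P3 := Pool.Agent.Helper32.PR.p3 f3 (Pool.Agent.Helper32.PR.p3j pLDU1) pLDU1

theorem pAA : G_AA := Pool.Agent.Helper4.PR.aa (Pool.Agent.Helper46.PR.a1 pN pLDU1 Pool.Agent.Helper3.PR.str) pP3
  Pool.Agent.Helper42.PR.emb3

/-- the compact flats of a discrete Zariski dense subgroup of full rank are dense -/
theorem dens {n : ℕ} (hn : 3 ≤ n) (Γ : Subgroup (SLn n)) (hd : DiscreteTopology Γ) (hZ : ZD Γ) (hr : ¬ Cov Γ (n - 2)) :
    Dens Γ := by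
  have hLF : LF Γ := Pool.Agent.Helper37.PR.lfd n Γ hd
  have hA : Adm Γ (clS Γ) := pCL n (by omega) Γ hLF hZ hr
  obtain ⟨k, hk, hf⟩ := pK0 n (by omega) Γ hLF hZ hr
  have hne : (clS Γ).Nonempty := ⟨k, hk, subset_closure ⟨hk, hf⟩⟩
  intro g hg ε hε
  obtain ⟨_, hcl⟩ := pAA n hn Γ (clS Γ) hZ hA hne g hg
  have : FirstCountableTopology (Mt n) := inferInstanceAs (FirstCountableTopology (Fin n → Fin n → ℝ))
  obtain ⟨x, hx, hlim⟩ := mem_closure_iff_seq_limit.1 hcl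
  obtain ⟨m, hm⟩ := (eventually_near hlim hε).exists
  exact ⟨x m, (hx m).1, (hx m).2, hm⟩

theorem not_cov {G : Type} [Group G] {n : ℕ} (hn : 3 ≤ n) (hr : prRank G = n - 1) : ¬ Cov G (n - 2) := by
  intro h
  have h1 : prRank G ≤ n - 2 := Nat.sInf_le h
  omega

theorem main1 {n : ℕ} (hn : 3 ≤ n) (Γ : Subgroup (SLn n)) (hd : DiscreteTopology Γ) (hZ : ZD Γ) (hr : prRank Γ = n - 1) :
    ∀ g : SLn n, ∀ ε > 0, ∃ k : SLn n, Flat Γ k.1 ∧ near k.1 g.1 ε :=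
  Pool.Agent.Helper59.PR.nrm n (by omega) Γ (dens hn Γ hd hZ (not_cov hn hr))

theorem main2 {n : ℕ} (hn : 3 ≤ n) (Γ : Subgroup (SLn n)) (hd : DiscreteTopology Γ) (hZ : ZD Γ) (hr : prRank Γ = n - 1) :
    ∀ g h : SLn n, ∀ ε > 0, ∃ γ ∈ Γ, ∃ b : SLn n, (∀ i j, j < i → b.1 i j = 0) ∧ near (γ.1 * g.1 * b.1) h.1 ε :=
  Pool.Agent.Helper86.PR.min_lem Pool.Agent.Helper38.PR.gen pLDU1 pCHB Pool.Agent.Helper15.PR.cj n (by omega) Γ
    (dens hn Γ hd hZ (not_cov hn hr))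

theorem main3 {n : ℕ} (hn : 3 ≤ n) (Γ : Subgroup (SLn n)) (hd : DiscreteTopology Γ) (hZ : ZD Γ) (hr : prRank Γ = n - 1) :
    ∀ g h : SLn n, ∀ ε > 0, ∃ γ ∈ Γ, ∃ (g' : SLn n) (d : Fin n → ℝ), ∏ i, d i = 1 ∧ near g'.1 g.1 ε ∧
      near (γ.1 * g'.1 * diagonal d) h.1 ε :=
  Pool.Agent.Helper13.PR.mix Pool.Agent.Helper38.PR.gen pLDU1 pCHB Pool.Agent.Helper15.PR.cj Pool.Agent.Helper59.PR.nrm
    n (by omega) Γ (dens hn Γ hd hZ (not_cov hn hr))

end Pool.Agent.Helper71.PR
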